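import Pool.Agent.Helper19.LC.HandoffE

/-!
# Handoff D for MP_430249_ag: the map `φ`
-/

namespace Pool.Agent.Helper13

open MvPolynomial
open Pool.Agent.Helper19.BasisE

/-- exponents as integer vectors -/
def castE (d : ℕ) : (Fin d →₀ ℕ) →+ (Fin d → ℤ) where
  toFun M v := (M v : ℤ)
  map_zero' := by funext v; simp
  map_add' M N := by funext v; simp

theorem toLaur_eq (k : Type*) [Field k] (d : ℕ) :
    toLaur k d = (AddMonoidAlgebra.mapDomainAlgHom k k (castE d) :
      MvPolynomial (Fin d) k →ₐ[k] Laur k d) := by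
  apply MvPolynomial.algHom_ext
  intro i
  unfold toLaur
  rw [aeval_X]
  change _ = AddMonoidAlgebra.mapDomain (castE d) (AddMonoidAlgebra.single (Finsupp.single i 1) 1)
  rw [AddMonoidAlgebra.mapDomain_single]
  unfold lx
  congr 1
  funext v
  simp only [castE, AddMonoidHom.coe_mk, ZeroHom.coe_mk]
  by_cases h : v = i
  · subst h; simp
  · rw [Pi.single_eq_of_ne h, Finsupp.single_eq_of_ne h]
    simp

theorem toLaur_monomial (k : Type*) [Field k] (d : ℕ) (M : Fin d →₀ ℕ) (c : k) :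
    toLaur k d (monomial M c) = AddMonoidAlgebra.single (castE d M) c := by
  rw [toLaur_eq]
  change AddMonoidAlgebra.mapDomain (castE d) (AddMonoidAlgebra.single M c) = _
  rw [AddMonoidAlgebra.mapDomain_single]

/-- `φ` on exponents of polynomials -/
noncomputable def eM : Ex →+ ExL := expMap.comp (castE 18)

theorem phi_toLaur_monomial (k : Type*) [Field k] (M : Ex) (c : k) :
    phi k (toLaur k 18 (monomial M c)) = AddMonoidAlgebra.single (eM M) c := by
  rw [toLaur_monomial]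
  change AddMonoidAlgebra.mapDomain expMap _ = _
  rw [AddMonoidAlgebra.mapDomain_single]
  rfl

theorem eM_apply (M : Ex) : eM M = ![(M 0 : ℤ), M 1, M 2, M 3, M 4, M 5,
    M 6 + M 7 + M 8, M 9 + M 10 + M 11, M 6 + M 9, M 7 + M 10, M 8 + M 11,
    M 12 + M 13 + M 14, M 15 + M 16 + M 17, M 12 + M 15, M 13 + M 16, M 14 + M 17] := rfl

theorem eM_eq_iff (M : Ex) (μ : ExL) : eM M = μ ↔ ((M 0 : ℤ) = μ 0 ∧ (M 1 : ℤ) = μ 1 ∧
    (M 2 : ℤ) = μ 2 ∧ (M 3 : ℤ) = μ 3 ∧ (M 4 : ℤ) = μ 4 ∧ (M 5 : ℤ) = μ 5 ∧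
    (M 6 : ℤ) + M 7 + M 8 = μ 6 ∧ (M 9 : ℤ) + M 10 + M 11 = μ 7 ∧ (M 6 : ℤ) + M 9 = μ 8 ∧
    (M 7 : ℤ) + M 10 = μ 9 ∧ (M 8 : ℤ) + M 11 = μ 10 ∧ (M 12 : ℤ) + M 13 + M 14 = μ 11 ∧
    (M 15 : ℤ) + M 16 + M 17 = μ 12 ∧ (M 12 : ℤ) + M 15 = μ 13 ∧ (M 13 : ℤ) + M 16 = μ 14 ∧
    (M 14 : ℤ) + M 17 = μ 15) := by
  rw [eM_apply]
  constructor
  · intro h
    subst h
    refine ⟨rfl, rfl, rfl, rfl, rfl, rfl, rfl, rfl, rfl, rfl, rfl, rfl, rfl, rfl, rfl, rfl⟩
  · rintro ⟨h0, h1, h2, h3, h4, h5, h6, h7, h8, h9, h10, h11, h12, h13, h14, h15⟩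
    funext i
    fin_cases i <;> assumption

/-- a `2 × 3` matrix of natural numbers with given row and column sums -/
theorem exists_matrix (r0 r1 c0 c1 c2 : ℤ) (hr0 : 0 ≤ r0) (hr1 : 0 ≤ r1) (hc0 : 0 ≤ c0)
    (hc1 : 0 ≤ c1) (hc2 : 0 ≤ c2) (h : r0 + r1 = c0 + c1 + c2) :
    ∃ a0 a1 a2 b0 b1 b2 : ℕ, (a0 : ℤ) + a1 + a2 = r0 ∧ (b0 : ℤ) + b1 + b2 = r1 ∧
      (a0 : ℤ) + b0 = c0 ∧ (a1 : ℤ) + b1 = c1 ∧ (a2 : ℤ) + b2 = c2 := by
  obtain ⟨a0, ha0, ha0', ha0''⟩ : ∃ a0 : ℤ, 0 ≤ a0 ∧ a0 ≤ c0 ∧ a0 ≤ r0 ∧ (a0 = c0 ∨ a0 = r0) := by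
    rcases le_total c0 r0 with h | h
    · exact ⟨c0, by omega, by omega, by omega, by omega⟩
    · exact ⟨r0, by omega, by omega, by omega, by omega⟩
  obtain ⟨a1, ha1, ha1', ha1''⟩ : ∃ a1 : ℤ, 0 ≤ a1 ∧ a1 ≤ c1 ∧ a1 ≤ r0 - a0 ∧
      (a1 = c1 ∨ a1 = r0 - a0) := by
    rcases le_total c1 (r0 - a0) with h | h
    · exact ⟨c1, by omega, by omega, by omega, by omega⟩
    · exact ⟨r0 - a0, by omega, by omega, by omega, by omega⟩
  refine ⟨a0.toNat, a1.toNat, (r0 - a0 - a1).toNat, (c0 - a0).toNat, (c1 - a1).toNat,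
    (c2 - (r0 - a0 - a1)).toNat, ?_, ?_, ?_, ?_, ?_⟩ <;> omega

/-- lifting exponents -/
theorem exists_lift (μ : ExL) (h0 : 0 ≤ μ 0) (h1 : 0 ≤ μ 1) (h2 : 0 ≤ μ 2) (h3 : 0 ≤ μ 3)
    (h4 : 0 ≤ μ 4) (h5 : 0 ≤ μ 5) (h6 : 0 ≤ μ 6) (h7 : 0 ≤ μ 7) (h8 : 0 ≤ μ 8) (h9 : 0 ≤ μ 9)
    (h10 : 0 ≤ μ 10) (h11 : 0 ≤ μ 11) (h12 : 0 ≤ μ 12) (h13 : 0 ≤ μ 13) (h14 : 0 ≤ μ 14)
    (h15 : 0 ≤ μ 15) (hy : μ 6 + μ 7 = μ 8 + μ 9 + μ 10) (hz : μ 11 + μ 12 = μ 13 + μ 14 + μ 15) :
    ∃ M : Ex, eM M = μ := by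
  obtain ⟨a0, a1, a2, b0, b1, b2, hy1, hy2, hy3, hy4, hy5⟩ :=
    exists_matrix (μ 6) (μ 7) (μ 8) (μ 9) (μ 10) h6 h7 h8 h9 h10 hy
  obtain ⟨c0, c1, c2, d0, d1, d2, hz1, hz2, hz3, hz4, hz5⟩ :=
    exists_matrix (μ 11) (μ 12) (μ 13) (μ 14) (μ 15) h11 h12 h13 h14 h15 hz
  refine ⟨Finsupp.equivFunOnFinite.symm ![(μ 0).toNat, (μ 1).toNat, (μ 2).toNat, (μ 3).toNat,
    (μ 4).toNat, (μ 5).toNat, a0, a1, a2, b0, b1, b2, c0, c1, c2, d0, d1, d2], ?_⟩
  rw [eM_eq_iff]
  exact ⟨Int.toNat_of_nonneg h0, Int.toNat_of_nonneg h1, Int.toNat_of_nonneg h2,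
    Int.toNat_of_nonneg h3, Int.toNat_of_nonneg h4, Int.toNat_of_nonneg h5, hy1, hy2, hy3, hy4,
    hy5, hz1, hz2, hz3, hz4, hz5⟩

theorem InL_of_InB {m : ℕ} {M : Ex} (h : InB m M) : InL m 0 (eM M) := by
  obtain ⟨h1, h2, h3, h4, h5, h6, h7⟩ := h
  rw [eM_apply]
  unfold InL
  simp only [Matrix.cons_val]
  refine ⟨⟨?_, ?_, ?_, ?_, ?_, ?_⟩, ?_, ⟨?_, ?_, ?_, ?_, ?_, ?_⟩, ?_, ?_, ?_, ?_, ?_, ?_⟩ <;>
    omega

theorem mem_LL {k : Type*} [Field k] {m : ℕ} {δ : ℤ} {p : E16 k} :
    p ∈ LL k m δ ↔ ∀ μ, p.coeff μ ≠ 0 → InL m δ μ := Iff.rfl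

theorem single_mem_LL {k : Type*} [Field k] {m : ℕ} {δ : ℤ} {μ : ExL} (h : InL m δ μ) (c : k) :
    (AddMonoidAlgebra.single μ c : E16 k) ∈ LL k m δ := by
  classical
  rw [mem_LL]
  intro ν hν
  rw [AddMonoidAlgebra.coeff_single, Finsupp.single_apply] at hν
  have : μ = ν := by
    by_contra h0
    exact hν (if_neg h0)
  rwa [← this]

theorem eq_sum_single {k : Type*} [Field k] (p : E16 k) :
    p = ∑ μ ∈ p.coeff.support, AddMonoidAlgebra.single μ (p.coeff μ) := by
  conv_lhs => rw [← AddMonoidAlgebra.sum_coeff_single p]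
  rfl

theorem phi_bb (k : Type*) [Field k] (m : ℕ) :
    (lat k 18 (bb k m)).map (phi k).toLinearMap = LL k m 0 := by
  apply le_antisymm
  · rintro _ ⟨_, ⟨p, hp, rfl⟩, rfl⟩
    have hp' : p ∈ (thrE k).bI m := by rwa [thrE_bI]
    have hp2 : p ∈ ((thrE k).bI m).restrictScalars k := hp'
    rw [(thrE k).bI_eq_span] at hp2
    have hle : Submodule.span k ((fun N => monomial N (1 : k)) '' (thrE k).S m) ≤
        (LL k m 0).comap ((phi k).toLinearMap ∘ₗ (toLaur k 18).toLinearMap) := by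
      rw [Submodule.span_le]
      rintro _ ⟨M, hM, rfl⟩
      simp only [SetLike.mem_coe, Submodule.mem_comap, LinearMap.coe_comp, Function.comp_apply,
        AlgHom.toLinearMap_apply]
      rw [phi_toLaur_monomial]
      exact single_mem_LL (InL_of_InB hM) 1
    exact hle hp2
  · intro p hp
    rw [eq_sum_single p]
    refine Submodule.sum_mem _ fun μ hμ => ?_
    have hμ' := hp μ (Finsupp.mem_support_iff.1 hμ)
    obtain ⟨⟨h0, h1, h2, h3, h4, h5⟩, hx, ⟨y1, y2, y3, y4, y5, y6⟩, z1, z2, z3, z4, z5, z6⟩ := hμ'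
    obtain ⟨M, hM⟩ := exists_lift μ h0 h1 h2 h3 h4 h5 (by omega) (by omega) (by omega) (by omega)
      (by omega) (by omega) (by omega) (by omega) (by omega) (by omega) (by omega) (by omega)
    refine ⟨toLaur k 18 (monomial M (p.coeff μ)), ⟨monomial M (p.coeff μ), ?_, rfl⟩, ?_⟩
    · have h1 : monomial M (p.coeff μ) = C (p.coeff μ) * monomial M 1 := by
        rw [C_mul_monomial, mul_one]
      rw [SetLike.mem_coe, Submodule.restrictScalars_mem, h1]
      refine Ideal.mul_mem_left _ _ (Ideal.subset_span ⟨M, ?_, rfl⟩)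
      rw [eM_eq_iff] at hM
      unfold InB
      omega
    · rw [AlgHom.toLinearMap_apply, phi_toLaur_monomial, hM]

/-! ### rewriting modulo `g_1, …, g_4` -/

/-- `(g_1, …, g_4)` -/
noncomputable def G4 (k : Type*) [Field k] : Ideal (MvPolynomial (Fin 18) k) :=
  Ideal.span {p | ∃ j : Fin 5, j < 4 ∧ p = gg k j}

theorem gg_mem_G4 (k : Type*) [Field k] {j : Fin 5} (hj : j < 4) : gg k j ∈ G4 k :=
  Ideal.subset_span ⟨j, hj, rfl⟩

/-- normal exponents -/
def Nrm (M : Ex) : Prop :=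
  (M 9 = 0 ∨ M 7 = 0) ∧ (M 6 = 0 ∨ M 11 = 0) ∧ (M 15 = 0 ∨ M 13 = 0) ∧ (M 12 = 0 ∨ M 17 = 0)

/-- the condition on monomials -/
def Pos (M : Ex) : Prop := 1 ≤ M 6 + M 9 ∧ 1 ≤ M 12 + M 15

theorem exchange (k : Type*) [Field k] {M : Ex} {a b c d : Fin 18} (hab : a ≠ b) (ha : 1 ≤ M a)
    (hb : 1 ≤ M b) : ∃ K : Ex, M = K + Finsupp.single a 1 + Finsupp.single b 1 ∧
      (monomial M (1 : k) - monomial (K + Finsupp.single c 1 + Finsupp.single d 1) 1 =
        monomial K 1 * (X a * X b - X c * X d)) := by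
  classical
  have hle : Finsupp.single a 1 + Finsupp.single b 1 ≤ M := by
    intro v
    rw [Finsupp.add_apply, Finsupp.single_apply, Finsupp.single_apply]
    split_ifs with h1 h2 h2
    · exact absurd (h1.trans h2.symm) hab
    · subst h1; omega
    · subst h2; omega
    · omega
  refine ⟨M - (Finsupp.single a 1 + Finsupp.single b 1), ?_, ?_⟩
  · rw [add_assoc, tsub_add_cancel_of_le hle]
  · have h1 : M = M - (Finsupp.single a 1 + Finsupp.single b 1) +
        (Finsupp.single a 1 + Finsupp.single b 1) := (tsub_add_cancel_of_le hle).symm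
    set K := M - (Finsupp.single a 1 + Finsupp.single b 1) with hK
    rw [h1]
    simp only [X, mul_sub, monomial_mul, mul_one, add_assoc]

theorem exists_normal (k : Type*) [Field k] (M : Ex) (hM : Pos M) :
    ∃ N : Ex, Nrm N ∧ Pos N ∧ eM N = eM M ∧ monomial M (1 : k) - monomial N 1 ∈ G4 k := by
  obtain ⟨n, hn⟩ : ∃ n, wE M = n := ⟨_, rfl⟩
  induction n using Nat.strong_induction_on generalizing M with
  | _ n ih =>
    -- one rewriting step
    have stepR : ∀ (a b c d : Fin 18) (j : Fin 5), j < 4 → gg k j = X a * X b - X c * X d ∨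
        gg k j = -(X a * X b - X c * X d) → a ≠ b → 1 ≤ M a → 1 ≤ M b →
        (∀ K : Ex, eM (K + Finsupp.single c 1 + Finsupp.single d 1) =
          eM (K + Finsupp.single a 1 + Finsupp.single b 1)) →
        (∀ K : Ex, Pos (K + Finsupp.single a 1 + Finsupp.single b 1) →
          Pos (K + Finsupp.single c 1 + Finsupp.single d 1)) →
        (∀ K : Ex, wE (K + Finsupp.single c 1 + Finsupp.single d 1) <
          wE (K + Finsupp.single a 1 + Finsupp.single b 1)) →
        ∃ N : Ex, Nrm N ∧ Pos N ∧ eM N = eM M ∧ monomial M (1 : k) - monomial N 1 ∈ G4 k := by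
      intro a b c d j hj hg hab ha hb he hp hw
      obtain ⟨K, hK, hK'⟩ := exchange k (c := c) (d := d) hab ha hb
      obtain ⟨N, h1, h2, h3, h4⟩ := ih _ (by rw [← hn, hK]; exact hw K)
        (K + Finsupp.single c 1 + Finsupp.single d 1) (hp K (by rwa [← hK])) rfl
      refine ⟨N, h1, h2, ?_, ?_⟩
      · rw [h3, he, ← hK]
      · have h5 : monomial M (1 : k) - monomial (K + Finsupp.single c 1 + Finsupp.single d 1) 1 ∈
            G4 k := by
          rw [hK']
          refine Ideal.mul_mem_left _ _ ?_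
          rcases hg with hg | hg
          · rw [← hg]
            exact gg_mem_G4 k hj
          · have := (G4 k).neg_mem (gg_mem_G4 k hj)
            rwa [hg, neg_neg] at this
        have h6 := (G4 k).add_mem h5 h4
        rwa [sub_add_sub_cancel] at h6
    by_cases c1 : M 9 = 0 ∨ M 7 = 0
    · by_cases c2 : M 6 = 0 ∨ M 11 = 0
      · by_cases c3 : M 15 = 0 ∨ M 13 = 0
        · by_cases c4 : M 12 = 0 ∨ M 17 = 0
          · exact ⟨M, ⟨c1, c2, c3, c4⟩, hM, rfl, by rw [sub_self]; exact Ideal.zero_mem _⟩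
          · push Not at c4
            refine stepR 12 17 15 14 3 (by decide) (Or.inl rfl) (by decide) (by omega) (by omega)
              ?_ ?_ ?_
            · intro K
              rw [eM_eq_iff]
              simp [eM_apply]
              omega
            · intro K hK
              unfold Pos at hK ⊢
              simp at hK ⊢
              omega
            · intro K
              simp [wE_apply]
              omega
        · push Not at c3
          refine stepR 15 13 12 16 2 (by decide) (Or.inl rfl) (by decide) (by omega) (by omega)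
            ?_ ?_ ?_
          · intro K
            rw [eM_eq_iff]
            simp [eM_apply]
            omega
          · intro K hK
            unfold Pos at hK ⊢
            simp at hK ⊢
            omega
          · intro K
            simp [wE_apply]
            omega
      · push Not at c2
        refine stepR 6 11 9 8 1 (by decide) (Or.inl rfl) (by decide) (by omega) (by omega)
          ?_ ?_ ?_
        · intro K
          rw [eM_eq_iff]
          simp [eM_apply]
          omega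
        · intro K hK
          unfold Pos at hK ⊢
          simp at hK ⊢
          omega
        · intro K
          simp [wE_apply]
          omega
    · push Not at c1
      refine stepR 9 7 6 10 0 (by decide) (Or.inl rfl) (by decide) (by omega) (by omega)
        ?_ ?_ ?_
      · intro K
        rw [eM_eq_iff]
        simp [eM_apply]
        omega
      · intro K hK
        unfold Pos at hK ⊢
        simp at hK ⊢
        omega
      · intro K
        simp [wE_apply]
        omega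

theorem normal_unique {M N : Ex} (hM : Nrm M) (hN : Nrm N) (pM : Pos M) (pN : Pos N)
    (h : eM M = eM N) : M = N := by
  rw [eM_eq_iff] at h
  simp only [eM_apply, Matrix.cons_val] at h
  obtain ⟨h0, h1, h2, h3, h4, h5, h6, h7, h8, h9, h10, h11, h12, h13, h14, h15⟩ := h
  obtain ⟨a1, a2, a3, a4⟩ := hM
  obtain ⟨b1, b2, b3, b4⟩ := hN
  obtain ⟨p1, p2⟩ := pM
  obtain ⟨q1, q2⟩ := pN
  have ky : M 6 = N 6 ∧ M 7 = N 7 ∧ M 8 = N 8 ∧ M 9 = N 9 ∧ M 10 = N 10 ∧ M 11 = N 11 := by
    clear a3 a4 b3 b4 p2 q2 h11 h12 h13 h14 h15 h0 h1 h2 h3 h4 h5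
    omega
  have kz : M 12 = N 12 ∧ M 13 = N 13 ∧ M 14 = N 14 ∧ M 15 = N 15 ∧ M 16 = N 16 ∧ M 17 = N 17 := by
    clear a1 a2 b1 b2 p1 q1 h6 h7 h8 h9 h10 h0 h1 h2 h3 h4 h5 ky
    omega
  ext v
  fin_cases v <;> simp only [Fin.zero_eta, Fin.mk_one, Fin.reduceFinMk] <;> omega

theorem monomial_sub_mem (k : Type*) [Field k] {M N : Ex} (pM : Pos M) (pN : Pos N)
    (h : eM M = eM N) : monomial M (1 : k) - monomial N 1 ∈ G4 k := by
  obtain ⟨M', m1, m2, m3, m4⟩ := exists_normal k M pM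
  obtain ⟨N', n1, n2, n3, n4⟩ := exists_normal k N pN
  have : M' = N' := normal_unique m1 n1 m2 n2 (by rw [m3, n3, h])
  subst this
  have := (G4 k).sub_mem m4 n4
  rwa [sub_sub_sub_cancel_right] at this

/-- elements of the kernel of `φ` whose monomials satisfy `Pos` are in `(g_1, …, g_4)` -/
theorem mem_G4_of_phi_eq_zero (k : Type*) [Field k] (h : MvPolynomial (Fin 18) k)
    (hpos : ∀ M ∈ h.support, Pos M) (h0 : phi k (toLaur k 18 h) = 0) : h ∈ G4 k := by
  classical
  -- choice of a representative with `Pos`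
  let r : ExL → Ex := fun μ => if hμ : ∃ M, Pos M ∧ eM M = μ then hμ.choose else 0
  have hr : ∀ M, Pos M → Pos (r (eM M)) ∧ eM (r (eM M)) = eM M := by
    intro M hM
    have hμ : ∃ M', Pos M' ∧ eM M' = eM M := ⟨M, hM, rfl⟩
    simp only [r, dif_pos hμ]
    exact hμ.choose_spec
  -- the linear map `single μ c ↦ monomial (r μ) c`
  let Ψ : E16 k →ₗ[k] MvPolynomial (Fin 18) k :=
    (Finsupp.lsum k fun μ => monomial (r μ)) ∘ₗ
      (AddMonoidAlgebra.coeffLinearEquiv k : E16 k ≃ₗ[k] (ExL →₀ k)).toLinearMap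
  have hΨ : ∀ μ c, Ψ (AddMonoidAlgebra.single μ c) = monomial (r μ) c := by
    intro μ c
    simp [Ψ]
  have hsum : h = ∑ M ∈ h.support, monomial M (coeff M h) := h.as_sum
  have h1 : h - Ψ (phi k (toLaur k 18 h)) ∈ G4 k := by
    have h2 : h - Ψ (phi k (toLaur k 18 h)) =
        ∑ M ∈ h.support, (monomial M (coeff M h) - monomial (r (eM M)) (coeff M h)) := by
      rw [Finset.sum_sub_distrib, ← hsum]
      congr 1
      conv_lhs => rw [hsum]
      rw [map_sum, map_sum, map_sum]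
      refine Finset.sum_congr rfl fun M _ => ?_
      rw [phi_toLaur_monomial, hΨ]
    rw [h2]
    refine Submodule.sum_mem _ fun M hM => ?_
    have h3 : monomial M (coeff M h) - monomial (r (eM M)) (coeff M h) =
        C (coeff M h) * (monomial M 1 - monomial (r (eM M)) 1) := by
      rw [mul_sub, C_mul_monomial, C_mul_monomial, mul_one]
    rw [h3]
    have h4 := hr M (hpos M hM)
    exact Ideal.mul_mem_left _ _ (monomial_sub_mem k (hpos M hM) h4.1 h4.2.symm)
  rwa [h0, map_zero, sub_zero] at h1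

theorem phi_toLaur_X (k : Type*) [Field k] (v : Fin 18) :
    phi k (toLaur k 18 (X v)) = AddMonoidAlgebra.single (eM (Finsupp.single v 1)) 1 := by
  rw [X, phi_toLaur_monomial]

/-- `φ(g_5) = s_1^2 t_1^2 f` -/
theorem phi_gg4 (k : Type*) [Field k] :
    phi k (toLaur k 18 (gg k 4)) = (t16 k 9 ^ 2 * t16 k 14 ^ 2) * fL k := by
  have e : ∀ (v : Fin 18) (i j : Fin 16), eM (Finsupp.single v 1) = Pi.single i 1 + Pi.single j 1 →
      phi k (toLaur k 18 (X v)) = t16 k i * t16 k j := by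
    intro v i j h
    rw [phi_toLaur_X, h]
    unfold t16
    rw [AddMonoidAlgebra.single_mul_single, mul_one]
  have e' : ∀ (v : Fin 18) (i : Fin 16), eM (Finsupp.single v 1) = Pi.single i 1 →
      phi k (toLaur k 18 (X v)) = t16 k i := by
    intro v i h
    rw [phi_toLaur_X, h]
    rfl
  have x0 := e' 0 0 (by rw [eM_apply]; funext i; fin_cases i <;> simp)
  have x1 := e' 1 1 (by rw [eM_apply]; funext i; fin_cases i <;> simp)
  have y0 := e 7 6 9 (by rw [eM_apply]; funext i; fin_cases i <;> simp)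
  have y1 := e 10 7 9 (by rw [eM_apply]; funext i; fin_cases i <;> simp)
  have z0 := e 13 11 14 (by rw [eM_apply]; funext i; fin_cases i <;> simp)
  have z1 := e 16 12 14 (by rw [eM_apply]; funext i; fin_cases i <;> simp)
  unfold fL
  simp only [gg, ff, map_add, map_mul, map_pow, x0, x1, y0, y1, z0, z1]
  ring

theorem phi_G4 (k : Type*) [Field k] {p : MvPolynomial (Fin 18) k} (hp : p ∈ G4 k) :
    phi k (toLaur k 18 p) = 0 := by
  have hle : G4 k ≤ RingHom.ker (((phi k).comp (toLaur k 18)).toRingHom) := by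
    unfold G4
    rw [Ideal.span_le]
    rintro _ ⟨j, hj, rfl⟩
    simp only [SetLike.mem_coe, RingHom.mem_ker]
    change phi k (toLaur k 18 (gg k j)) = 0
    have hX : ∀ a b c d : Fin 18, eM (Finsupp.single a 1 + Finsupp.single b 1) =
        eM (Finsupp.single c 1 + Finsupp.single d 1) →
        phi k (toLaur k 18 (X a * X b - X c * X d)) = 0 := by
      intro a b c d h
      have h1 : (X a * X b - X c * X d : MvPolynomial (Fin 18) k) =
          monomial (Finsupp.single a 1 + Finsupp.single b 1) 1 -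
            monomial (Finsupp.single c 1 + Finsupp.single d 1) 1 := by
        simp only [X, monomial_mul, mul_one]
      rw [h1, map_sub, map_sub, phi_toLaur_monomial, phi_toLaur_monomial, h, sub_self]
    fin_cases j
    · exact hX 9 7 6 10 (by rw [eM_eq_iff]; simp [eM_apply])
    · exact hX 6 11 9 8 (by rw [eM_eq_iff]; simp [eM_apply])
    · exact hX 15 13 12 16 (by rw [eM_eq_iff]; simp [eM_apply])
    · exact hX 12 17 15 14 (by rw [eM_eq_iff]; simp [eM_apply])
    · exact absurd hj (by decide)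
  exact hle hp

theorem InB_of_mem_bb {k : Type*} [Field k] {m : ℕ} {h : MvPolynomial (Fin 18) k}
    (hb : h ∈ bb k m) {M : Ex} (hM : M ∈ h.support) : InB m M := by
  rw [← thrE_bI] at hb
  unfold Thr.bI at hb
  rw [mem_ideal_span_monomial_image] at hb
  obtain ⟨N, hN, hle⟩ := hb M hM
  have := (thrE k).S_up m N hN (M - N)
  rwa [add_tsub_cancel_of_le hle] at this

theorem t_sq (k : Type*) [Field k] : (t16 k 9 ^ 2 * t16 k 14 ^ 2 : E16 k) =
    AddMonoidAlgebra.single (Pi.single 9 2 + Pi.single 14 2) 1 := by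
  unfold t16
  rw [AddMonoidAlgebra.single_pow, AddMonoidAlgebra.single_pow, AddMonoidAlgebra.single_mul_single]
  congr 1
  · congr 1 <;> (funext i; simp [Pi.single_apply])
  · simp

theorem mem_GG_iff (k : Type*) [Field k] (m : ℕ) (hm : 1 ≤ m) (h : MvPolynomial (Fin 18) k)
    (hb : h ∈ bb k m) : h ∈ GG k ↔ ∃ q ∈ LL k m 2, phi k (toLaur k 18 h) = fL k * q := by
  classical
  constructor
  · intro hG
    obtain ⟨q0, hq0, hq1⟩ := bb_inf_GG k m h hb hG
    have h1 : phi k (toLaur k 18 (h - gg k 4 * q0)) = 0 := phi_G4 k hq1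
    refine ⟨(t16 k 9 ^ 2 * t16 k 14 ^ 2) * phi k (toLaur k 18 q0), ?_, ?_⟩
    · rw [t_sq]
      have h2 : phi k (toLaur k 18 q0) = ∑ M ∈ q0.support,
          AddMonoidAlgebra.single (eM M) (coeff M q0) := by
        conv_lhs => rw [q0.as_sum]
        rw [map_sum, map_sum]
        refine Finset.sum_congr rfl fun M _ => ?_
        rw [phi_toLaur_monomial]
      rw [h2, Finset.mul_sum]
      refine Submodule.sum_mem _ fun M hM => ?_
      rw [AddMonoidAlgebra.single_mul_single]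
      refine single_mem_LL ?_ _
      obtain ⟨a1, a2, a3, a4, a5, a6, a7⟩ := hq0 M hM
      simp at a1 a2 a3 a4 a5 a6 a7
      unfold InL
      simp [eM_apply]
      omega
    · rw [map_sub, map_sub, sub_eq_zero] at h1
      rw [h1, map_mul, map_mul, phi_gg4]
      ring
  · rintro ⟨q, hq, hphi⟩
    -- lift `q`
    have hlift : ∀ μ, q.coeff μ ≠ 0 → ∃ M : Ex, eM M + (Pi.single 9 2 + Pi.single 14 2) = μ := by
      intro μ hμ
      obtain ⟨⟨h0, h1, h2, h3, h4, h5⟩, hx, ⟨y1, y2, y3, y4, y5, y6⟩, z1, z2, z3, z4, z5, z6⟩ :=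
        hq μ hμ
      have e1 : ∀ i : Fin 16, (μ - (Pi.single 9 2 + Pi.single 14 2) : ExL) i =
          μ i - ((if i = 9 then 2 else 0) + (if i = 14 then 2 else 0)) := by
        intro i
        simp [Pi.single_apply]
      obtain ⟨M, hM⟩ := exists_lift (μ - (Pi.single 9 2 + Pi.single 14 2) : ExL)
        (by rw [e1]; simpa using h0) (by rw [e1]; simpa using h1) (by rw [e1]; simpa using h2)
        (by rw [e1]; simpa using h3) (by rw [e1]; simpa using h4) (by rw [e1]; simpa using h5)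
        (by rw [e1]; simp; omega) (by rw [e1]; simp; omega) (by rw [e1]; simp; omega)
        (by rw [e1]; simp; omega) (by rw [e1]; simp; omega) (by rw [e1]; simp; omega)
        (by rw [e1]; simp; omega) (by rw [e1]; simp; omega) (by rw [e1]; simp; omega)
        (by rw [e1]; simp; omega)
        (by rw [e1, e1, e1, e1, e1]; simp; omega) (by rw [e1, e1, e1, e1, e1]; simp; omega)
      exact ⟨M, by rw [hM]; abel⟩
    choose! r hr using hlift
    set q0 : MvPolynomial (Fin 18) k := ∑ μ ∈ q.coeff.support, monomial (r μ) (q.coeff μ) with hq0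
    have h2 : phi k (toLaur k 18 (gg k 4 * q0)) = fL k * q := by
      rw [map_mul, map_mul, phi_gg4, hq0, map_sum, map_sum]
      have h3 : (t16 k 9 ^ 2 * t16 k 14 ^ 2) * ∑ μ ∈ q.coeff.support,
          phi k (toLaur k 18 (monomial (r μ) (q.coeff μ))) = q := by
        conv_rhs => rw [eq_sum_single q]
        rw [t_sq, Finset.mul_sum]
        refine Finset.sum_congr rfl fun μ hμ => ?_
        rw [phi_toLaur_monomial, AddMonoidAlgebra.single_mul_single, one_mul, add_comm,
          hr μ (Finsupp.mem_support_iff.1 hμ)]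
      rw [mul_comm (t16 k 9 ^ 2 * t16 k 14 ^ 2), mul_assoc, h3]
    have h4 : h - gg k 4 * q0 ∈ G4 k := by
      apply mem_G4_of_phi_eq_zero
      · intro M hM
        have hM' : M ∈ h.support ∪ (gg k 4 * q0).support := MvPolynomial.support_sub _ _ _ hM
        rcases Finset.mem_union.1 hM' with hM1 | hM1
        · obtain ⟨a1, a2, a3, a4, a5, a6, a7⟩ := InB_of_mem_bb hb hM1
          exact ⟨by omega, by omega⟩
        · obtain ⟨A, hA, B, hB, rfl⟩ := Finset.mem_add.1 (support_mul _ _ hM1)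
          -- `B` is one of the lifts
          have hB2 : ∃ μ, q.coeff μ ≠ 0 ∧ B = r μ := by
            rw [hq0] at hB
            have h5 := Finset.mem_biUnion.1 (support_sum hB)
            obtain ⟨μ, hμ, hB3⟩ := h5
            refine ⟨μ, Finsupp.mem_support_iff.1 hμ, ?_⟩
            exact Finset.mem_singleton.1 (support_monomial_subset hB3)
          obtain ⟨μ, hμ, rfl⟩ := hB2
          obtain ⟨⟨h0, h1, h2, h3, h4, h5⟩, hx, ⟨y1, y2, y3, y4, y5, y6⟩, z1, z2, z3, z4, z5, z6⟩ :=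
            hq μ hμ
          have e8 := congrFun (hr μ hμ) 8
          have e13 := congrFun (hr μ hμ) 13
          simp [eM_apply] at e8 e13
          constructor
          · simp only [Finsupp.add_apply]
            omega
          · simp only [Finsupp.add_apply]
            omega
      · rw [map_sub, map_sub, hphi, h2, sub_self]
    have h5 : gg k 4 * q0 ∈ GG k := Ideal.mul_mem_right _ _ (Ideal.subset_span ⟨4, rfl⟩)
    have h6 : G4 k ≤ GG k := by
      unfold G4 GG
      apply Ideal.span_mono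
      rintro _ ⟨j, _, rfl⟩
      exact ⟨j, rfl⟩
    have := (GG k).add_mem (h6 h4) h5
    rwa [sub_add_cancel] at this

end Pool.Agent.Helper13
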