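import Pool.Agent.Helper19.LC.InstE

/-!
# Handoff E for MP_430249_ag: `gg_regular`, `step`, `II_pow_sup`, `bb_inf_GG`
-/

namespace Pool.Agent.Helper13

open MvPolynomial
open Pool.Agent.Helper19.BasisE

theorem thrE_g (k : Type*) [Field k] : (thrE k).g = gg k := rfl

theorem thrE_gpow (k : Type*) [Field k] (β : Fin 5 → ℕ) : (thrE k).gpow β = gpow k β := rfl

theorem thrE_bI (k : Type*) [Field k] (m : ℕ) : (thrE k).bI m = bb k m := by
  unfold Thr.bI bb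
  congr 1
  ext p
  constructor
  · rintro ⟨M, hM, rfl⟩
    exact ⟨M, hM, rfl⟩
  · rintro ⟨M, hM, rfl⟩
    exact ⟨M, hM, rfl⟩

theorem thrE_gI (k : Type*) [Field k] : (thrE k).gI = GG k := rfl

theorem thrE_I (k : Type*) [Field k] : (thrE k).I = II k := by
  unfold Thr.I II
  rw [thrE_gI, thrE_bI]

theorem thrE_D (k : Type*) [Field k] (m : ℕ) : (thrE k).D m = GG k ⊔ bb k m := by
  unfold Thr.D
  rw [thrE_gI, thrE_bI]

theorem thrE_J (k : Type*) [Field k] (n : ℕ) (S : Finset (Fin 5 → ℕ)) :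
    (thrE k).J n {β | β ∉ S} = JJ k n S := by
  unfold Thr.J JJ Thr.gQ
  rw [thrE_I]
  congr 2
  ext p
  constructor
  · rintro ⟨β, hβ, rfl⟩
    exact ⟨β, hβ, rfl⟩
  · rintro ⟨β, hβ, rfl⟩
    exact ⟨β, hβ, rfl⟩

theorem image_gg_lt (k : Type*) [Field k] (i : Fin 5) :
    {q | ∃ j < i, q = gg k j} = (thrE k).g '' {j | j < i} := by
  ext q
  constructor
  · rintro ⟨j, hj, rfl⟩
    exact ⟨j, hj, rfl⟩
  · rintro ⟨j, hj, rfl⟩
    exact ⟨j, hj, rfl⟩

theorem gg_regular (k : Type*) [Field k] (i : Fin 5) (p : MvPolynomial (Fin 18) k)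
    (h : gg k i * p ∈ Ideal.span {q | ∃ j < i, q = gg k j}) :
    p ∈ Ideal.span {q | ∃ j < i, q = gg k j} := by
  rw [image_gg_lt] at h ⊢
  exact (thrE k).g_regular (fun h => lt_irrefl i h) h

theorem step (k : Type*) [Field k] (n : ℕ) (S : Finset (Fin 5 → ℕ)) (hS : ∀ β ∈ S, ∀ γ ≤ β, γ ∈ S)
    (β : Fin 5 → ℕ) (hβ : β ∈ S) (hmax : ∀ i, β + Pi.single i 1 ∉ S) (p : MvPolynomial (Fin 18) k) :
    gpow k β * p ∈ JJ k n S ↔ p ∈ GG k ⊔ bb k (n - ∑ i, β i) := by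
  have hQ : ∀ γ ∈ {β | β ∉ S}, ∀ δ, γ ≤ δ → δ ∈ {β : Fin 5 → ℕ | β ∉ S} :=
    fun γ hγ δ h hδ => hγ (hS δ hδ γ h)
  rw [← thrE_J, ← thrE_D, ← thrE_gpow]
  constructor
  · intro h
    exact (thrE k).mem_D_of_gpow_mul hQ (fun h => h hβ) h
  · intro h
    refine (thrE k).gpow_mul_mem_J hQ ?_ h
    intro δ hδ hδS
    obtain ⟨i, hi⟩ : ∃ i, β i < δ i := by
      by_contra hc
      push Not at hc
      exact absurd hδ (not_lt_of_ge hc)
    refine hmax i (hS δ hδS _ ?_)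
    intro j
    by_cases hj : j = i
    · subst hj
      rw [Pi.add_apply, Pi.single_eq_same]
      exact hi
    · rw [Pi.add_apply, Pi.single_eq_of_ne hj, add_zero]
      exact hδ.le j

theorem II_pow_sup (k : Type*) [Field k] (n : ℕ) : II k ^ n ⊔ GG k = bb k n ⊔ GG k := by
  have h := (thrE k).J_one n
  rw [thrE_D] at h
  unfold Thr.J at h
  rw [thrE_I] at h
  apply le_antisymm
  · refine sup_le ?_ le_sup_right
    rw [sup_comm, ← h]
    exact le_sup_left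
  · refine sup_le ?_ le_sup_right
    have h1 : bb k n ≤ GG k ⊔ bb k n := le_sup_right
    rw [← h] at h1
    refine le_trans h1 (sup_le le_sup_left (le_trans ?_ le_sup_right))
    unfold Thr.gQ
    rw [Ideal.span_le]
    rintro _ ⟨γ, hγ, rfl⟩
    have h2 := (thrE k).gpow_mem_gI_pow γ
    exact Ideal.pow_le_self (by
      intro h0
      rw [Set.mem_ofPred_eq] at hγ
      omega) h2

theorem bb_inf_GG (k : Type*) [Field k] (m : ℕ) (h : MvPolynomial (Fin 18) k) (hb : h ∈ bb k m)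
    (hG : h ∈ GG k) : ∃ q : MvPolynomial (Fin 18) k,
      (∀ M ∈ q.support, InB m (M + (Finsupp.single 0 2 + Finsupp.single 10 2 + Finsupp.single 16 2))) ∧
      h - gg k 4 * q ∈ Ideal.span {p | ∃ j : Fin 5, j < 4 ∧ p = gg k j} := by
  rw [← thrE_bI] at hb
  rw [← thrE_gI] at hG
  obtain ⟨q, hq, hq'⟩ := (thrE k).bI_inf_gI m 4 hb hG
  refine ⟨q, hq, ?_⟩
  have hset : {p | ∃ j : Fin 5, j < 4 ∧ p = gg k j} = (thrE k).g '' {i | i ≠ 4} := by
    ext p
    constructor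
    · rintro ⟨j, hj, rfl⟩
      exact ⟨j, hj.ne, rfl⟩
    · rintro ⟨j, hj, rfl⟩
      refine ⟨j, ?_, rfl⟩
      fin_cases j
      · decide
      · decide
      · decide
      · decide
      · exact absurd rfl hj
  rw [hset]
  exact hq'

end Pool.Agent.Helper13
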