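import Pool.Agent.Helper13.PartF2
import Pool.Agent.Helper19.LC.HandoffE
import Pool.Agent.Helper19.LC.HandoffD
import Pool.Agent.H29.HomBlk

/-!
# MAIN1 for MP_430249_ag: the chain of exact sequences
-/

set_option linter.unusedSectionVars false

namespace Pool.Agent.Helper13

open Finset AddMonoidAlgebra
open Pool.Agent.Helper19.BasisE

/-! ### lattices and families of ideals -/

section LatBasic

variable (k : Type*) [Field k]

theorem castE_injective (d : ℕ) : Function.Injective (castE d) := by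
  intro M N h
  ext v
  have h' : ((M v : ℕ) : ℤ) = ((N v : ℕ) : ℤ) := congrFun h v
  exact_mod_cast h'

theorem toLaur_injective (d : ℕ) : Function.Injective (toLaur k d) := by
  rw [toLaur_eq]
  exact AddMonoidAlgebra.mapDomain_injective (castE_injective d)

theorem mem_lat {J : Ideal (MvPolynomial (Fin 18) k)} {p : MvPolynomial (Fin 18) k} :
    toLaur k 18 p ∈ lat k 18 J ↔ p ∈ J := by
  constructor
  · rintro ⟨q, hq, h⟩
    have := toLaur_injective k 18 h
    rw [← this]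
    exact hq
  · intro hp
    exact ⟨p, hp, rfl⟩

theorem exists_of_mem_lat {J : Ideal (MvPolynomial (Fin 18) k)} {p : Laur k 18}
    (h : p ∈ lat k 18 J) : ∃ q ∈ J, toLaur k 18 q = p := h

theorem lat_mono {I J : Ideal (MvPolynomial (Fin 18) k)} (h : I ≤ J) :
    lat k 18 I ≤ lat k 18 J := Submodule.map_mono h

theorem closed_lat (J : Ideal (MvPolynomial (Fin 18) k)) : Closed (lx k 18) (lat k 18 J) := by
  intro v p hp
  rw [← toLaur_X]
  exact lat_closed_mul k _ hp

theorem isUnit_lx (v : Fin 18) : IsUnit (lx k 18 v) := by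
  refine IsUnit.of_mul_eq_one (single (-(Pi.single v 1)) 1) ?_
  rw [lx, single_mul_single, mul_one, add_neg_cancel, AddMonoidAlgebra.one_def]

theorem mono_fam (J : Ideal (MvPolynomial (Fin 18) k)) : Mono (fam k 18 J) := (closed_lat k J).mono

theorem fam_le {I J : Ideal (MvPolynomial (Fin 18) k)} (h : I ≤ J) :
    ∀ T, fam k 18 I T ≤ fam k 18 J T := loc_mono (lat_mono k h)

/-- multiplication by a polynomial -/
theorem tr_mul (g : MvPolynomial (Fin 18) k) {A B C D : Ideal (MvPolynomial (Fin 18) k)}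
    (h1 : ∀ p ∈ A, g * p ∈ C) (h2 : ∀ p ∈ A, g * p ∈ D ↔ p ∈ B)
    (h3 : ∀ p' ∈ C, ∃ p ∈ A, p' - g * p ∈ D) :
    Tr (LinearMap.mulLeft k (toLaur k 18 g)) (fam k 18 A) (fam k 18 B) (fam k 18 C)
      (fam k 18 D) := by
  refine Tr.loc ?_ (isUnit_lx k) (closed_lat k A) (closed_lat k B) (closed_lat k C)
    (closed_lat k D) ?_ ?_ ?_
  · intro v p
    simp only [LinearMap.mulLeft_apply]
    ring
  · intro p hp
    obtain ⟨q, hq, rfl⟩ := exists_of_mem_lat k hp
    rw [LinearMap.mulLeft_apply, ← map_mul, mem_lat]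
    exact h1 q hq
  · intro p hp
    obtain ⟨q, hq, rfl⟩ := exists_of_mem_lat k hp
    rw [LinearMap.mulLeft_apply, ← map_mul, mem_lat, mem_lat]
    exact h2 q hq
  · intro p' hp'
    obtain ⟨q', hq', rfl⟩ := exists_of_mem_lat k hp'
    obtain ⟨p, hp, h⟩ := h3 q' hq'
    refine ⟨toLaur k 18 p, (mem_lat k).2 hp, ?_⟩
    rw [LinearMap.mulLeft_apply, ← map_mul, ← map_sub, mem_lat]
    exact h

/-- inclusion -/
theorem tr_id {A B C D : Ideal (MvPolynomial (Fin 18) k)}
    (h1 : ∀ p ∈ A, p ∈ C) (h2 : ∀ p ∈ A, p ∈ D ↔ p ∈ B)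
    (h3 : ∀ p' ∈ C, ∃ p ∈ A, p' - p ∈ D) :
    Tr (LinearMap.id : Laur k 18 →ₗ[k] Laur k 18) (fam k 18 A) (fam k 18 B) (fam k 18 C)
      (fam k 18 D) := by
  refine Tr.loc ?_ (isUnit_lx k) (closed_lat k A) (closed_lat k B) (closed_lat k C)
    (closed_lat k D) ?_ ?_ ?_
  · intro v p
    rfl
  · intro p hp
    obtain ⟨q, hq, rfl⟩ := exists_of_mem_lat k hp
    exact (mem_lat k).2 (h1 q hq)
  · intro p hp
    obtain ⟨q, hq, rfl⟩ := exists_of_mem_lat k hp
    rw [LinearMap.id_apply, mem_lat, mem_lat]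
    exact h2 q hq
  · intro p' hp'
    obtain ⟨q', hq', rfl⟩ := exists_of_mem_lat k hp'
    obtain ⟨p, hp, h⟩ := h3 q' hq'
    refine ⟨toLaur k 18 p, (mem_lat k).2 hp, ?_⟩
    rw [LinearMap.id_apply, ← map_sub, mem_lat]
    exact h

theorem phi_lx (v : Fin 18) : phi k (lx k 18 v) = X16 k v := by
  unfold lx X16
  change AddMonoidAlgebra.mapDomain expMap _ = _
  rw [AddMonoidAlgebra.mapDomain_single]

/-- the map `φ` -/
theorem tr_phi (m : ℕ) (hm : 1 ≤ m) :
    Tr (phi k).toLinearMap (fam k 18 (bb k m)) (fam k 18 (bb k m ⊓ GG k)) (LF k m 0) (JF k m) := by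
  refine Tr.loc ?_ (isUnit_lx k) (closed_lat k _) (closed_lat k _) (LL_closed k m 0)
    (fLL_closed k m) ?_ ?_ ?_
  · intro v p
    rw [AlgHom.toLinearMap_apply, map_mul, phi_lx]
    rfl
  · intro p hp
    rw [← phi_bb]
    exact ⟨p, hp, rfl⟩
  · intro p hp
    obtain ⟨q, hq, rfl⟩ := exists_of_mem_lat k hp
    rw [mem_lat, Submodule.mem_inf]
    have h := mem_GG_iff k m hm q hq
    constructor
    · rintro ⟨r, hr, h'⟩
      exact ⟨hq, h.2 ⟨r, hr, h'.symm⟩⟩
    · rintro ⟨-, h'⟩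
      obtain ⟨r, hr, h''⟩ := h.1 h'
      exact ⟨r, hr, h''.symm⟩
  · intro p' hp'
    rw [← phi_bb] at hp'
    obtain ⟨p, hp, h⟩ := hp'
    refine ⟨p, hp, ?_⟩
    rw [← h, sub_self]
    exact Submodule.zero_mem _

end LatBasic

/-! ### the ring itself -/

section RingR

variable (k : Type*) [Field k]

theorem prod_lx (T : Finset (Fin 18)) (n : ℕ) :
    (∏ v ∈ T, lx k 18 v) ^ n = single ((n : ℤ) • ind T) 1 := by
  have h1 : ∏ v ∈ T, lx k 18 v = single (ind T) 1 := by
    have h2 : ind T = ∑ v ∈ T, Pi.single v 1 := by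
      funext w
      simp [ind, Finset.sum_apply, Pi.single_apply]
    rw [h2]
    clear h2
    induction T using Finset.induction_on with
    | empty => simp [AddMonoidAlgebra.one_def]
    | insert v T hv ih =>
      rw [prod_insert hv, sum_insert hv, ih, lx, single_mul_single, mul_one]
  rw [h1, single_pow, one_pow]
  congr 1

theorem lat_top : lat k 18 ⊤ = SupL k {μ : Fin 18 → ℤ | ∀ v, 0 ≤ μ v} := by
  apply le_antisymm
  · rintro _ ⟨q, -, rfl⟩
    change toLaur k 18 q ∈ _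
    rw [q.as_sum, map_sum]
    refine Submodule.sum_mem _ fun M _ => ?_
    rw [toLaur_monomial]
    intro μ hμ
    rw [coeff_single, Finsupp.single_apply] at hμ
    split_ifs at hμ with h
    · rw [← h]
      intro v
      change (0 : ℤ) ≤ ((M v : ℕ) : ℤ)
      positivity
    · exact absurd rfl hμ
  · intro p hp
    have hsum : p = ∑ ν ∈ p.coeff.support, single ν (p.coeff ν) := by
      conv_lhs => rw [← AddMonoidAlgebra.sum_coeff_single p]
      rfl
    rw [hsum]
    refine Submodule.sum_mem _ fun μ hμ => ?_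
    have hμ' := hp μ (Finsupp.mem_support_iff.1 hμ)
    refine ⟨MvPolynomial.monomial (Finsupp.equivFunOnFinite.symm fun v => (μ v).toNat)
      (p.coeff μ), trivial, ?_⟩
    rw [AlgHom.toLinearMap_apply, toLaur_monomial]
    congr 1
    funext v
    change (((μ v).toNat : ℕ) : ℤ) = μ v
    exact Int.toNat_of_nonneg (hμ' v)

/-- the up-set of the fine degree `μ` -/
def Ftop (μ : Fin 18 → ℤ) (T : Finset (Fin 18)) : Prop := ∀ v, μ v < 0 → v ∈ T

theorem fam_top : fam k 18 ⊤ = FamF k Ftop := by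
  funext T
  ext p
  unfold fam
  rw [(closed_lat k ⊤).mem_loc]
  have hcoef : ∀ (N : ℕ) (μ : Fin 18 → ℤ), ((∏ v ∈ T, lx k 18 v) ^ N * p).coeff μ =
      p.coeff (μ - (N : ℤ) • ind T) := by
    intro N μ
    rw [prod_lx, single_mul_coeff]
  rw [lat_top]
  constructor
  · rintro ⟨N, hN⟩ μ hμ v hv
    have h1 := hN (μ + (N : ℤ) • ind T) (by
      rw [hcoef, add_sub_cancel_right]; exact hμ) v
    rw [mem_iff_ind]
    refine bound_aux' (N := N) (θ := 0) (x := μ v) ?_ hv (ind_bounds T v).1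
    simpa using h1
  · intro hp
    have h1 : ∀ μ : Fin 18 → ℤ, ∃ N : ℕ, p.coeff μ ≠ 0 → ∀ M : ℕ, N ≤ M →
        ∀ v, 0 ≤ (μ + (M : ℤ) • ind T) v := by
      intro μ
      by_cases hμ : p.coeff μ = 0
      · exact ⟨0, fun h => absurd hμ h⟩
      · have h2 := hp μ hμ
        refine ⟨(∑ i, |μ i|).toNat, fun _ M hM v => ?_⟩
        have h3 : |μ v| ≤ ∑ i, |μ i| := Finset.single_le_sum (f := fun i => |μ i|)
          (fun i _ => abs_nonneg (μ i)) (Finset.mem_univ v)
        have h4 : (∑ i, |μ i|) ≤ M := by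
          rw [Int.toNat_le] at hM
          exact hM
        have h5 := neg_abs_le (μ v)
        have := bound_aux (θ := 0) (x := μ v) (N := M) (w := ind T v) (ind_bounds T v).1
          (by positivity) (by linarith) (fun h => (mem_iff_ind T v).1 (h2 v h))
        simpa using this
    choose N hN using h1
    refine ⟨p.coeff.support.sup N, fun μ hμ => ?_⟩
    rw [hcoef] at hμ
    have h2 := hN _ hμ (p.coeff.support.sup N)
      (Finset.le_sup (f := N) (Finsupp.mem_support_iff.2 hμ))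
    rwa [sub_add_cancel] at h2

theorem fam_bot : fam k 18 ⊥ = fun _ => ⊥ := by
  funext T
  apply le_antisymm
  · intro p hp
    obtain ⟨N, hN⟩ := (closed_lat k ⊥).mem_loc.1 hp
    obtain ⟨q, hq, h⟩ := exists_of_mem_lat k hN
    have hq0 : q = 0 := hq
    rw [hq0, map_zero] at h
    have hu := (isUnit_prodX (isUnit_lx k) T).pow N
    rw [Submodule.mem_bot]
    exact (hu.mul_right_eq_zero).1 h.symm
  · exact bot_le

theorem fr_univ {V M : Type*} (G : Finset V → Submodule k (AddMonoidAlgebra k M)) :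
    fr G Set.univ = G := by
  funext T
  unfold fr
  apply le_antisymm inf_le_left
  exact le_inf le_rfl (fun p _ μ _ => Set.mem_univ μ)

theorem van_R (q : ℤ) (hq : q < 18) : Van (fam k 18 ⊤) (fam k 18 ⊥) q := by
  rw [fam_top, fam_bot, ← fr_univ k (FamF k Ftop)]
  refine van_of_fine fun μ _ => ?_
  by_cases h : ∃ v, 0 ≤ μ v
  · obtain ⟨v, hv⟩ := h
    refine cone_acyc k (Ftop μ) v ?_ q
    intro T
    unfold Ftop
    constructor
    · intro h w hw
      have h1 := h w hw
      have h2 : w ≠ v := by rintro rfl; omega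
      rw [mem_erase]
      rw [mem_insert] at h1
      rcases h1 with h1 | h1
      · exact absurd h1 h2
      · exact ⟨h2, h1⟩
    · intro h w hw
      rw [mem_insert]
      exact Or.inr (mem_of_mem_erase (h w hw))
  · push Not at h
    intro u hu
    have : u = 0 := by
      funext T
      by_contra hT
      obtain ⟨h1, h2⟩ := hu.1 T hT
      have h3 : T = univ := by
        rw [eq_univ_iff_forall]
        intro v
        exact h1 v (h v)
      rw [h3, card_univ, Fintype.card_fin] at h2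
      push_cast at h2
      omega
    rw [this]
    exact Submodule.zero_mem _

end RingR

/-! ### the regular sequence -/

section GGpart

variable (k : Type*) [Field k]

/-- `(g_1, …, g_i)` -/
noncomputable def Gi (i : ℕ) : Ideal (MvPolynomial (Fin 18) k) :=
  Ideal.span {q | ∃ j : Fin 5, j.1 < i ∧ q = gg k j}

theorem Gi_zero : Gi k 0 = ⊥ := by
  unfold Gi
  rw [Ideal.span_eq_bot]
  rintro x ⟨j, hj, -⟩
  omega

theorem Gi_five : Gi k 5 = GG k := by
  unfold Gi GG
  congr 1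
  ext q
  constructor
  · rintro ⟨j, -, rfl⟩
    exact ⟨j, rfl⟩
  · rintro ⟨j, rfl⟩
    exact ⟨j, j.2, rfl⟩

theorem Gi_succ (i : Fin 5) : Gi k (i.1 + 1) = Gi k i.1 ⊔ Ideal.span {gg k i} := by
  unfold Gi
  rw [← Ideal.span_union]
  congr 1
  ext q
  constructor
  · rintro ⟨j, hj, rfl⟩
    rcases Nat.lt_succ_iff_lt_or_eq.1 hj with h | h
    · exact Or.inl ⟨j, h, rfl⟩
    · right
      have : j = i := Fin.ext h
      rw [this]
      rfl
  · rintro (⟨j, hj, rfl⟩ | h)
    · exact ⟨j, by omega, rfl⟩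
    · rw [Set.mem_singleton_iff] at h
      exact ⟨i, by omega, h⟩

theorem tr_gg (i : Fin 5) : Tr (LinearMap.mulLeft k (toLaur k 18 (gg k i))) (fam k 18 ⊤)
    (fam k 18 (Gi k i.1)) (fam k 18 (Gi k (i.1 + 1))) (fam k 18 (Gi k i.1)) := by
  refine tr_mul k _ ?_ ?_ ?_
  · intro p _
    rw [Gi_succ, mul_comm]
    exact Ideal.mul_mem_left _ _ (Ideal.mem_sup_right (Ideal.mem_span_singleton_self _))
  · intro p _
    constructor
    · intro h
      exact gg_regular k i p h
    · intro h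
      exact Ideal.mul_mem_left _ _ h
  · intro p' hp'
    rw [Gi_succ] at hp'
    obtain ⟨a, ha, b, hb, rfl⟩ := Submodule.mem_sup.1 hp'
    obtain ⟨c, rfl⟩ := Ideal.mem_span_singleton.1 hb
    exact ⟨c, trivial, by rw [add_sub_cancel_right]; exact ha⟩

theorem van_Gi (i : ℕ) (hi : i ≤ 5) (q : ℤ) (hq : q < 18 - i) :
    Van (fam k 18 ⊤) (fam k 18 (Gi k i)) q := by
  induction i generalizing q with
  | zero =>
    rw [Gi_zero]
    exact van_R k q (by push_cast at hq; omega)
  | succ i ih =>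
    have hle : Gi k i ≤ Gi k (i + 1) := by
      rw [Gi_succ k ⟨i, by omega⟩]
      exact le_sup_left
    refine Van.right (fam_le k hle) (fam_le k le_top)
      (ih (by omega) q (by push_cast at hq; omega)) ?_
    have h1 := ih (by omega) (q + 1) (by push_cast at hq; omega)
    exact ((tr_gg k ⟨i, by omega⟩).van_iff (mono_fam k _) (fam_le k le_top) (mono_fam k _)).1 h1

theorem van_GG (q : ℤ) (hq : q < 13) : Van (fam k 18 ⊤) (fam k 18 (GG k)) q := by
  rw [← Gi_five]
  exact van_Gi k 5 le_rfl q (by push_cast; omega)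

end GGpart

/-! ### the chain -/

section Chain

variable (k : Type*) [Field k]

theorem bb_zero : bb k 0 = ⊤ := by
  rw [Ideal.eq_top_iff_one]
  refine Ideal.subset_span ⟨0, ?_, ?_⟩
  · unfold InB
    simp
  · simp

theorem tr_bb (m : ℕ) : Tr (LinearMap.id : Laur k 18 →ₗ[k] Laur k 18) (fam k 18 (bb k m))
    (fam k 18 (bb k m ⊓ GG k)) (fam k 18 (GG k ⊔ bb k m)) (fam k 18 (GG k)) := by
  refine tr_id k ?_ ?_ ?_
  · intro p hp
    exact Ideal.mem_sup_right hp
  · intro p hp
    rw [Submodule.mem_inf]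
    exact ⟨fun h => ⟨hp, h⟩, fun h => h.2⟩
  · intro p' hp'
    obtain ⟨a, ha, b, hb, rfl⟩ := Submodule.mem_sup.1 hp'
    exact ⟨b, hb, by rw [add_sub_cancel_right]; exact ha⟩

/-- the step of the chain -/
theorem tr_step (n : ℕ) (S : Finset (Fin 5 → ℕ)) (hS : ∀ β ∈ S, ∀ γ ≤ β, γ ∈ S)
    (β : Fin 5 → ℕ) (hβ : β ∈ S) (hmax : ∀ i, β + Pi.single i 1 ∉ S) :
    Tr (LinearMap.mulLeft k (toLaur k 18 (gpow k β))) (fam k 18 ⊤)
      (fam k 18 (GG k ⊔ bb k (n - ∑ i, β i))) (fam k 18 (JJ k n (S.erase β)))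
      (fam k 18 (JJ k n S)) := by
  have hsub : {p | ∃ γ : Fin 5 → ℕ, γ ∉ S.erase β ∧ p = gpow k γ} =
      {p | ∃ γ : Fin 5 → ℕ, γ ∉ S ∧ p = gpow k γ} ∪ {gpow k β} := by
    ext p
    constructor
    · rintro ⟨γ, hγ, rfl⟩
      by_cases h : γ = β
      · right; rw [h]; rfl
      · left; exact ⟨γ, fun h' => hγ (mem_erase.2 ⟨h, h'⟩), rfl⟩
    · rintro (⟨γ, hγ, rfl⟩ | h)
      · exact ⟨γ, fun h' => hγ (mem_of_mem_erase h'), rfl⟩
      · rw [Set.mem_singleton_iff] at h
        exact ⟨β, by simp, h⟩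
  have hJ : JJ k n (S.erase β) = JJ k n S ⊔ Ideal.span {gpow k β} := by
    unfold JJ
    rw [hsub, Ideal.span_union, sup_assoc]
  refine tr_mul k _ ?_ ?_ ?_
  · intro p _
    rw [hJ, mul_comm]
    exact Ideal.mul_mem_left _ _ (Ideal.mem_sup_right (Ideal.mem_span_singleton_self _))
  · intro p _
    exact step k n S hS β hβ hmax p
  · intro p' hp'
    rw [hJ] at hp'
    obtain ⟨a, ha, b, hb, rfl⟩ := Submodule.mem_sup.1 hp'
    obtain ⟨c, rfl⟩ := Ideal.mem_span_singleton.1 hb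
    exact ⟨c, trivial, by rw [add_sub_cancel_right]; exact ha⟩

theorem JJ_mono (n : ℕ) {S S' : Finset (Fin 5 → ℕ)} (h : S ⊆ S') : JJ k n S' ≤ JJ k n S := by
  unfold JJ
  refine sup_le_sup le_rfl (Ideal.span_mono ?_)
  rintro _ ⟨β, hβ, rfl⟩
  exact ⟨β, fun h' => hβ (h h'), rfl⟩

theorem JJ_empty (n : ℕ) : JJ k n ∅ = ⊤ := by
  rw [Ideal.eq_top_iff_one]
  refine Ideal.mem_sup_right (Ideal.subset_span ⟨0, by simp, ?_⟩)
  simp [gpow]

/-- exponents of weight less than `n` -/
def Sn (n : ℕ) : Finset (Fin 5 → ℕ) :=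
  (Fintype.piFinset fun _ => Finset.range n).filter fun β => ∑ i, β i < n

theorem mem_Sn {n : ℕ} {β : Fin 5 → ℕ} : β ∈ Sn n ↔ ∑ i, β i < n := by
  unfold Sn
  rw [mem_filter, Fintype.mem_piFinset]
  constructor
  · exact fun h => h.2
  · intro h
    refine ⟨fun i => ?_, h⟩
    rw [mem_range]
    exact lt_of_le_of_lt (Finset.single_le_sum (f := β) (fun _ _ => Nat.zero_le _)
      (Finset.mem_univ i)) h

theorem Sn_down (n : ℕ) : ∀ β ∈ Sn n, ∀ γ ≤ β, γ ∈ Sn n := by
  intro β hβ γ h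
  rw [mem_Sn] at hβ ⊢
  exact lt_of_le_of_lt (Finset.sum_le_sum fun i _ => h i) hβ

theorem JJ_Sn (n : ℕ) : JJ k n (Sn n) = II k ^ n := by
  unfold JJ
  apply sup_eq_left.2
  rw [Ideal.span_le]
  rintro _ ⟨β, hβ, rfl⟩
  rw [mem_Sn, not_lt] at hβ
  have h1 := (thrE k).gpow_mem_gI_pow β
  have h2 : GG k ^ (∑ i, β i) ≤ II k ^ n := by
    refine le_trans (Ideal.pow_right_mono (le_sup_left : GG k ≤ II k) _) ?_
    exact Ideal.pow_le_pow_right hβ
  exact h2 h1

/-- maximal elements -/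
theorem exists_max {S : Finset (Fin 5 → ℕ)} (hS : ∀ β ∈ S, ∀ γ ≤ β, γ ∈ S) (hne : S.Nonempty) :
    ∃ β ∈ S, (∀ i, β + Pi.single i 1 ∉ S) ∧ (∀ γ ∈ S, ∑ i, γ i ≤ ∑ i, β i) ∧
      ∀ γ ∈ S.erase β, ∀ δ ≤ γ, δ ∈ S.erase β := by
  obtain ⟨β, hβ, hmax⟩ := S.exists_max_image (fun β => ∑ i, β i) hne
  refine ⟨β, hβ, ?_, hmax, ?_⟩
  · intro i h
    have h1 := hmax _ h
    simp only [Pi.add_apply, Finset.sum_add_distrib] at h1
    rw [Finset.sum_pi_single'] at h1
    simp at h1
  · intro γ hγ δ hδ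
    rw [mem_erase] at hγ ⊢
    refine ⟨?_, hS γ hγ.2 δ hδ⟩
    rintro rfl
    apply hγ.1
    have h1 := hmax γ hγ.2
    have h2 : ∀ i ∈ (Finset.univ : Finset (Fin 5)), δ i ≤ γ i := fun i _ => hδ i
    have h3 : ∑ i, δ i = ∑ i, γ i := le_antisymm (Finset.sum_le_sum h2) h1
    funext i
    exact ((Finset.sum_eq_sum_iff_of_le h2).1 h3 i (Finset.mem_univ i)).symm

theorem fin_D (m : ℕ) (hF : 1 ≤ m → FinC (LF k m 0) (JF k m) 8) :
    FinC (fam k 18 ⊤) (fam k 18 (GG k ⊔ bb k m)) 7 := by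
  rcases Nat.eq_zero_or_pos m with rfl | hm
  · rw [bb_zero, sup_top_eq]
    exact Van.self.fin
  · have h1 : FinC (fam k 18 (bb k m)) (fam k 18 (bb k m ⊓ GG k)) 8 :=
      (tr_phi k m hm).fin' (mono_fam k _) (fam_le k inf_le_left) (mono_JF k m) (hF hm)
    have h2 : FinC (fam k 18 (GG k ⊔ bb k m)) (fam k 18 (GG k)) 8 :=
      (tr_bb k m).fin (mono_fam k _) (fam_le k inf_le_left) (mono_fam k _) h1
    refine FinC.right (fam_le k le_sup_left) (fam_le k le_top) (van_GG k 7 (by norm_num)) ?_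
    norm_num
    exact h2

theorem fin_all (n : ℕ) (hF : ∀ m : ℕ, 1 ≤ m → FinC (LF k m 0) (JF k m) 8) :
    FinC (fam k 18 ⊤) (fam k 18 (II k ^ n)) 7 := by
  have key : ∀ (N : ℕ) (S : Finset (Fin 5 → ℕ)), S.card = N → (∀ β ∈ S, ∀ γ ≤ β, γ ∈ S) →
      FinC (fam k 18 ⊤) (fam k 18 (JJ k n S)) 7 := by
    intro N
    induction N with
    | zero =>
      intro S hS _
      rw [card_eq_zero] at hS
      rw [hS, JJ_empty]
      exact Van.self.fin
    | succ N ih =>
      intro S hc hS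
      have hne : S.Nonempty := by
        rw [← card_pos]; omega
      obtain ⟨β, hβ, hmax, -, hS'⟩ := exists_max hS hne
      have h1 := ih (S.erase β) (by rw [card_erase_of_mem hβ, hc]; rfl) hS'
      have h2 := (tr_step k n S hS β hβ hmax).fin (q := 7) (mono_fam k _) (fam_le k le_top)
        (mono_fam k _) (fin_D k _ (fun h => hF _ h))
      exact FinC.trans (fam_le k (JJ_mono k n (erase_subset _ _))) (fam_le k le_top) h2 h1
  have := key _ (Sn n) rfl (Sn_down n)
  rwa [JJ_Sn] at this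

theorem JJ_zero (n : ℕ) : JJ k n {0} = GG k ⊔ bb k n := by
  rw [← thrE_D, ← (thrE k).J_one n, ← thrE_J]
  congr 1
  ext β
  simp only [Set.mem_ofPred_eq, mem_singleton]
  constructor
  · intro h
    by_contra hc
    apply h
    funext i
    have : ∑ i, β i = 0 := by omega
    have := (Finset.sum_eq_zero_iff.1 this) i (Finset.mem_univ i)
    simpa using this
  · rintro h rfl
    simp at h

theorem nonvan (n : ℕ) (hn : 1 ≤ n) (l : Lam) (hl : l 0 = 3 * n - 1)
    (hne : ¬ Van (fr (LF k n 0) (SL l)) (fr (JF k n) (SL l)) 8) :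
    ¬ Van (fr (fam k 18 ⊤) (SM l)) (fr (fam k 18 (II k ^ n)) (SM l)) 7 := by
  intro hV
  -- the chain
  have key : ∀ (N : ℕ) (S : Finset (Fin 5 → ℕ)), S.card = N + 1 → 0 ∈ S →
      (∀ β ∈ S, ∀ γ ≤ β, γ ∈ S) →
      Van (fr (fam k 18 (JJ k n {0})) (SM l)) (fr (fam k 18 (JJ k n S)) (SM l)) 8 := by
    intro N
    induction N with
    | zero =>
      intro S hc h0 _
      obtain ⟨a, ha⟩ := card_eq_one.1 hc
      rw [ha, mem_singleton] at h0
      rw [ha, ← h0]
      exact Van.self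
    | succ N ih =>
      intro S hc h0 hS
      obtain ⟨β, hβ, hmax, hmax', hS'⟩ := exists_max hS ⟨0, h0⟩
      have hpos : 1 ≤ ∑ i, β i := by
        have : 1 < S.card := by omega
        obtain ⟨γ, hγ, hγ0⟩ := Finset.exists_mem_ne this 0
        have h1 := hmax' γ hγ
        have h2 : ∑ i, γ i ≠ 0 := by
          intro h
          apply hγ0
          funext i
          simpa using (Finset.sum_eq_zero_iff.1 h) i (Finset.mem_univ i)
        omega
      have hβ0 : (0 : Fin 5 → ℕ) ≠ β := by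
        rintro rfl
        simp at hpos
      have h1 := ih (S.erase β) (by rw [card_erase_of_mem hβ, hc]; rfl)
        (mem_erase.2 ⟨hβ0, h0⟩) hS'
      refine Van.trans (fr_le_fr (fam_le k (JJ_mono k n (erase_subset _ _))) _)
        (fr_le_fr (fam_le k (JJ_mono k n (singleton_subset_iff.2 (mem_erase.2 ⟨hβ0, h0⟩)))) _)
        ?_ h1
      -- the step
      have htr := (tr_step k n S hS β hβ hmax).fr (S := SM (l - degg β)) (S' := SM l)
        (fun p => by
          have := gpow_flt (k := k) β (l - degg β) p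
          rw [sub_add_cancel] at this
          exact this) (hom_fam_top k _) (hom_fam_JJ k n S l)
      refine (htr.van_iff (fr_mono (mono_fam k _) _) (fr_le_fr (fam_le k le_top) _)
        (fr_mono (mono_fam k _) _)).1 ?_
      rcases Nat.eq_zero_or_pos (n - ∑ i, β i) with hm | hm
      · rw [hm, bb_zero, sup_top_eq]
        exact Van.self
      · have hsum : ∑ i, β i = β 0 + β 1 + β 2 + β 3 + β 4 := Fin.sum_univ_five _
        refine Van.right (A := fr (fam k 18 (GG k)) (SM (l - degg β)))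
          (fr_le_fr (fam_le k le_sup_left) _) (fr_le_fr (fam_le k le_top) _)
          ((van_GG k 8 (by norm_num)).fr (hom_fam_top k _) (hom_fam_GG k _)) ?_
        norm_num
        have hl0 : (l - degg β) 0 = 3 * n - 1 - 2 * β 4 := by
          simp [degg, hl]
        have h3 := van_high k (n - ∑ i, β i) (l - degg β) (by rw [hl0]; omega)
          (by rw [hl0]; omega)
        have t1 := (tr_phi k (n - ∑ i, β i) hm).fr (S := SM (l - degg β))
          (S' := SL (l - degg β)) (fun p => phi_flt k _ p) (hom_fam_bb k _ _)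
          (hom_loc_fLL k _ _)
        have h4 := (t1.van_iff (q := 9) (fr_mono (mono_fam k _) _)
          (fr_le_fr (fam_le k inf_le_left) _) (fr_mono (mono_JF k _) _)).2 h3
        have t2 := (tr_bb k (n - ∑ i, β i)).fr (S := SM (l - degg β))
          (S' := SM (l - degg β)) (fun p => rfl) (hom_fam_bb k _ _) (hom_fam_GG k _)
        exact (t2.van_iff (q := 9) (fr_mono (mono_fam k _) _)
          (fr_le_fr (fam_le k inf_le_left) _) (fr_mono (mono_fam k _) _)).1 h4
  have h0 : (0 : Fin 5 → ℕ) ∈ Sn n := by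
    rw [mem_Sn]
    have : 0 < n := hn
    simpa using this
  have hcard : (Sn n).card = ((Sn n).card - 1) + 1 := by
    have := card_pos.2 ⟨_, h0⟩
    omega
  have h1 := key _ (Sn n) hcard h0 (Sn_down n)
  rw [JJ_Sn, JJ_zero] at h1
  have hIle : II k ^ n ≤ GG k ⊔ bb k n := by
    rw [← JJ_Sn, ← JJ_zero]
    exact JJ_mono k n (singleton_subset_iff.2 h0)
  have h2 : Van (fr (fam k 18 ⊤) (SM l)) (fr (fam k 18 (GG k ⊔ bb k n)) (SM l)) 7 := by
    refine Van.right (fr_le_fr (fam_le k hIle) _) (fr_le_fr (fam_le k le_top) _) hV ?_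
    norm_num
    exact h1
  have h3 : Van (fr (fam k 18 (GG k ⊔ bb k n)) (SM l)) (fr (fam k 18 (GG k)) (SM l)) (7 + 1) := by
    refine Van.left (fr_le_fr (fam_le k le_sup_left) _) (fr_le_fr (fam_le k le_top) _) h2 ?_
    exact (van_GG k (7 + 1) (by norm_num)).fr (hom_fam_top k _) (hom_fam_GG k _)
  norm_num at h3
  apply hne
  have t1 := (tr_phi k n hn).fr (S := SM l) (S' := SL l) (fun p => phi_flt k _ p)
    (hom_fam_bb k _ _) (hom_loc_fLL k _ _)
  have t2 := (tr_bb k n).fr (S := SM l) (S' := SM l) (fun p => rfl) (hom_fam_bb k _ _)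
    (hom_fam_GG k _)
  have h4 := (t2.van_iff (q := 8) (fr_mono (mono_fam k _) _)
    (fr_le_fr (fam_le k inf_le_left) _) (fr_mono (mono_fam k _) _)).2 h3
  exact (t1.van_iff (q := 8) (fr_mono (mono_fam k _) _)
    (fr_le_fr (fam_le k inf_le_left) _) (fr_mono (mono_JF k _) _)).1 h4

end Chain

end Pool.Agent.Helper13
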