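import Mathlib

/-!
# Bases adapted to polynomials with pairwise coprime leading monomials

Abstract Part E for MP_430249_ag.  `g i = X^(μ i) + lower`, the `μ i` pairwise coprime;
`wM M = ∏ g i ^ β_i(M) * X^(bb M)` is a basis of the polynomial ring and many ideals are
coordinate subspaces for it.
-/

set_option linter.unusedSectionVars false

namespace Pool.Agent.Helper19.BasisE

open MvPolynomial

section mult

variable {σ : Type*}

/-- the largest `n` with `n • μ ≤ M` (for `μ ≠ 0`). -/
noncomputable def mult (μ M : σ →₀ ℕ) : ℕ := by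
  classical exact Nat.findGreatest (fun n => n • μ ≤ M) M.degree

theorem le_mult_iff {μ M : σ →₀ ℕ} (hμ : μ ≠ 0) {n : ℕ} : n ≤ mult μ M ↔ n • μ ≤ M := by
  classical
  obtain ⟨s, hs⟩ : ∃ s, μ s ≠ 0 := by
    by_contra h
    push Not at h
    exact hμ (Finsupp.ext h)
  have hb : ∀ m, m • μ ≤ M → m ≤ M.degree := by
    intro m hm
    have h1 := hm s
    simp only [Finsupp.smul_apply, smul_eq_mul] at h1
    have h2 : m ≤ m * μ s := Nat.le_mul_of_pos_right m (Nat.pos_of_ne_zero hs)
    have h3 : M s ≤ M.degree := Finsupp.le_degree s M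
    omega
  unfold mult
  constructor
  · intro h
    have h0 : (fun n => n • μ ≤ M) 0 := by simp
    have := Nat.findGreatest_spec (P := fun n => n • μ ≤ M) (Nat.zero_le M.degree) h0
    calc n • μ ≤ (Nat.findGreatest (fun n => n • μ ≤ M) M.degree) • μ := by
          gcongr
      _ ≤ M := by convert this using 1
  · intro h
    have := Nat.le_findGreatest (P := fun n => n • μ ≤ M) (hb n h) h
    convert this using 1

theorem mult_smul_le {μ M : σ →₀ ℕ} (hμ : μ ≠ 0) : mult μ M • μ ≤ M :=
  (le_mult_iff hμ).1 le_rfl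

theorem mult_add_self {μ M : σ →₀ ℕ} (hμ : μ ≠ 0) : mult μ (M + μ) = mult μ M + 1 := by
  apply le_antisymm
  · have h := mult_smul_le (M := M + μ) hμ
    by_contra hc
    push Not at hc
    have h2 : (mult μ M + 1 + 1) • μ ≤ M + μ := by
      refine le_trans ?_ h
      gcongr
      omega
    have h3 : (mult μ M + 1) • μ ≤ M := by
      intro s
      have := h2 s
      simp only [Finsupp.smul_apply, smul_eq_mul, Finsupp.add_apply] at this ⊢
      nlinarith
    have := (le_mult_iff hμ).2 h3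
    omega
  · rw [le_mult_iff hμ]
    have := mult_smul_le (M := M) hμ
    rw [add_smul, one_smul]
    gcongr

theorem mult_add_of_disj {μ ν M : σ →₀ ℕ} (hμ : μ ≠ 0) (h : ∀ s, μ s = 0 ∨ ν s = 0) :
    mult μ (M + ν) = mult μ M := by
  apply le_antisymm
  · rw [le_mult_iff hμ]
    intro s
    have := mult_smul_le (M := M + ν) hμ s
    simp only [Finsupp.smul_apply, smul_eq_mul, Finsupp.add_apply] at this ⊢
    rcases h s with h | h
    · simp [h]
    · simpa [h] using this
  · rw [le_mult_iff hμ]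
    exact le_trans (mult_smul_le hμ) le_self_add

end mult

/-- Polynomials `g i` with pairwise coprime leading exponents `μ i` (for the weight `w`); all
other exponents have `θ`-value at least that of `μ i` for all `θ ∈ T`. -/
structure Lead (k σ ι : Type*) [Field k] where
  μ : ι → σ →₀ ℕ
  μ_ne : ∀ i, μ i ≠ 0
  disj : ∀ i j, i ≠ j → ∀ s, μ i s = 0 ∨ μ j s = 0
  g : ι → MvPolynomial σ k
  w : (σ →₀ ℕ) →+ ℕ
  T : Set ((σ →₀ ℕ) →+ ℤ)
  g_lead : ∀ i, coeff (μ i) (g i) = 1
  g_low : ∀ i, ∀ N ∈ (g i).support, N ≠ μ i → w N < w (μ i) ∧ ∀ θ ∈ T, θ (μ i) ≤ θ N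

variable {k σ ι : Type*} [Field k] [Fintype ι] [DecidableEq ι] (L : Lead k σ ι)

namespace Lead

/-- the exponents of the leading monomials in `M`. -/
noncomputable def β (M : σ →₀ ℕ) (i : ι) : ℕ := mult (L.μ i) M

/-- the exponent `∑ β_i μ_i`. -/
noncomputable def lin (β : ι → ℕ) : σ →₀ ℕ := ∑ i, β i • L.μ i

/-- the reduced part of `M`. -/
noncomputable def bb (M : σ →₀ ℕ) : σ →₀ ℕ := M - L.lin (L.β M)

theorem lin_add (β β' : ι → ℕ) : L.lin (β + β') = L.lin β + L.lin β' := by
  simp [lin, add_smul, Finset.sum_add_distrib]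

theorem lin_single (i : ι) : L.lin (Pi.single i 1) = L.μ i := by
  unfold lin
  rw [Finset.sum_eq_single i]
  · simp
  · intro j _ hj
    simp [Pi.single_eq_of_ne hj]
  · simp

theorem lin_β_le (M : σ →₀ ℕ) : L.lin (L.β M) ≤ M := by
  intro s
  unfold lin
  rw [Finsupp.finsetSum_apply]
  by_cases h : ∃ i, L.μ i s ≠ 0
  · obtain ⟨i, hi⟩ := h
    rw [Finset.sum_eq_single i]
    · exact mult_smul_le (L.μ_ne i) s
    · intro j _ hj
      rcases L.disj i j (Ne.symm hj) s with h | h
      · exact absurd h hi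
      · simp [h]
    · simp
  · push Not at h
    rw [Finset.sum_eq_zero]
    · exact Nat.zero_le _
    · intro i _
      simp [h i]

theorem lin_add_bb (M : σ →₀ ℕ) : L.lin (L.β M) + L.bb M = M := by
  unfold bb
  exact add_tsub_cancel_of_le (L.lin_β_le M)

theorem β_add_μ (M : σ →₀ ℕ) (i : ι) : L.β (M + L.μ i) = L.β M + Pi.single i 1 := by
  funext j
  unfold β
  by_cases h : j = i
  · subst h
    simp [mult_add_self (L.μ_ne j)]
  · rw [mult_add_of_disj (L.μ_ne j) (L.disj j i h)]
    simp [Pi.single_eq_of_ne h]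

theorem bb_add_μ (M : σ →₀ ℕ) (i : ι) : L.bb (M + L.μ i) = L.bb M := by
  have h1 := L.lin_add_bb (M + L.μ i)
  have h2 := L.lin_add_bb M
  rw [L.β_add_μ, L.lin_add, L.lin_single] at h1
  have h3 : L.lin (L.β M) + L.μ i + L.bb (M + L.μ i) = L.lin (L.β M) + L.μ i + L.bb M := by
    rw [h1]
    conv_lhs => rw [← h2]
    abel
  exact add_left_cancel h3

theorem β_add_lin (M : σ →₀ ℕ) (γ : ι → ℕ) : L.β (M + L.lin γ) = L.β M + γ := by
  classical
  -- induction on the sum of `γ`
  obtain ⟨n, hn⟩ : ∃ n, ∑ i, γ i = n := ⟨_, rfl⟩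
  induction n generalizing γ with
  | zero =>
    have : γ = 0 := by
      funext i
      have := Finset.sum_eq_zero_iff.1 hn i (Finset.mem_univ i)
      simpa using this
    subst this
    simp [lin]
  | succ n ih =>
    obtain ⟨i, hi⟩ : ∃ i, γ i ≠ 0 := by
      by_contra h
      push Not at h
      simp [h] at hn
    set γ' : ι → ℕ := fun j => if j = i then γ j - 1 else γ j with hγ'
    have hγ : γ = γ' + Pi.single i 1 := by
      funext j
      by_cases h : j = i
      · subst h
        simp [hγ']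
        omega
      · simp [hγ', h]
    have hsum : ∑ j, γ' j = n := by
      rw [hγ] at hn
      simp only [Pi.add_apply, Finset.sum_add_distrib, Finset.sum_pi_single', Finset.mem_univ,
        if_true] at hn
      omega
    rw [hγ, L.lin_add, L.lin_single, ← add_assoc, L.β_add_μ, ih γ' hsum, add_assoc]

theorem bb_add_lin (M : σ →₀ ℕ) (γ : ι → ℕ) : L.bb (M + L.lin γ) = L.bb M := by
  have h1 := L.lin_add_bb (M + L.lin γ)
  have h2 := L.lin_add_bb M
  rw [L.β_add_lin, L.lin_add] at h1
  have h3 : L.lin (L.β M) + L.lin γ + L.bb (M + L.lin γ) = L.lin (L.β M) + L.lin γ + L.bb M := by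
    rw [h1]
    conv_lhs => rw [← h2]
    abel
  exact add_left_cancel h3

theorem β_bb (M : σ →₀ ℕ) : L.β (L.bb M) = 0 := by
  have h := L.β_add_lin (L.bb M) (L.β M)
  rw [add_comm (L.bb M), L.lin_add_bb] at h
  funext i
  have := congrFun h i
  simp only [Pi.add_apply] at this
  simp only [Pi.zero_apply]
  omega

theorem bb_of_β_eq_zero {M : σ →₀ ℕ} (h : L.β M = 0) : L.bb M = M := by
  have := L.lin_add_bb M
  rw [h] at this
  simpa [lin] using this

/-- `g^β`. -/
noncomputable def gpow (β : ι → ℕ) : MvPolynomial σ k := ∏ i, L.g i ^ β i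

/-- the basis vector attached to the exponent `M`. -/
noncomputable def wM (M : σ →₀ ℕ) : MvPolynomial σ k :=
  L.gpow (L.β M) * monomial (L.bb M) 1

theorem gpow_add (β γ : ι → ℕ) : L.gpow (β + γ) = L.gpow β * L.gpow γ := by
  simp [gpow, pow_add, Finset.prod_mul_distrib]

theorem gpow_single (i : ι) : L.gpow (Pi.single i 1) = L.g i := by
  unfold gpow
  rw [Finset.prod_eq_single i]
  · simp
  · intro j _ hj
    simp [Pi.single_eq_of_ne hj]
  · simp

theorem gpow_mul_wM (γ : ι → ℕ) (M : σ →₀ ℕ) : L.gpow γ * L.wM M = L.wM (M + L.lin γ) := by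
  unfold wM
  rw [L.β_add_lin, L.bb_add_lin, L.gpow_add]
  ring

theorem g_mul_wM (i : ι) (M : σ →₀ ℕ) : L.g i * L.wM M = L.wM (M + L.μ i) := by
  rw [← L.gpow_single, ← L.lin_single, L.gpow_mul_wM]

/-- `N` is below `M`. -/
def Low (N M : σ →₀ ℕ) : Prop := L.w N < L.w M ∧ ∀ θ ∈ L.T, θ M ≤ θ N

/-- polynomials with leading exponent `M`. -/
def Led (M : σ →₀ ℕ) (f : MvPolynomial σ k) : Prop :=
  coeff M f = 1 ∧ ∀ N ∈ f.support, N ≠ M → L.Low N M

theorem led_monomial (M : σ →₀ ℕ) : L.Led M (monomial M 1) := by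
  classical
  refine ⟨by simp, ?_⟩
  intro N hN hne
  rw [mem_support_iff, coeff_monomial] at hN
  simp only [ne_eq, ite_eq_right_iff, one_ne_zero, imp_false, not_not] at hN
  exact absurd hN.symm hne

theorem Led.weak {M : σ →₀ ℕ} {f : MvPolynomial σ k} (h : L.Led M f) {N : σ →₀ ℕ}
    (hN : N ∈ f.support) : L.w N ≤ L.w M ∧ ∀ θ ∈ L.T, θ M ≤ θ N := by
  by_cases hne : N = M
  · subst hne
    exact ⟨le_rfl, fun _ _ => le_rfl⟩
  · exact ⟨(h.2 N hN hne).1.le, (h.2 N hN hne).2⟩

theorem Led.mul {M M' : σ →₀ ℕ} {f f' : MvPolynomial σ k} (h : L.Led M f) (h' : L.Led M' f') :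
    L.Led (M + M') (f * f') := by
  classical
  have key : ∀ A ∈ f.support, ∀ B ∈ f'.support, (A, B) ≠ (M, M') → L.Low (A + B) (M + M') := by
    intro A hA B hB hne
    have h1 := h.weak L hA
    have h2 := h'.weak L hB
    refine ⟨?_, fun θ hθ => ?_⟩
    · rw [map_add, map_add]
      by_cases hAM : A = M
      · have hBM : B ≠ M' := by
          rintro rfl
          exact hne (by rw [hAM])
        have := (h'.2 B hB hBM).1
        omega
      · have := (h.2 A hA hAM).1
        omega
    · rw [map_add, map_add]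
      exact add_le_add (h1.2 θ hθ) (h2.2 θ hθ)
  constructor
  · rw [coeff_mul, Finset.sum_eq_single (M, M')]
    · simp [h.1, h'.1]
    · rintro ⟨A, B⟩ hAB hne
      by_contra hc
      have hA : A ∈ f.support := by
        rw [mem_support_iff]
        intro h0
        simp [h0] at hc
      have hB : B ∈ f'.support := by
        rw [mem_support_iff]
        intro h0
        simp [h0] at hc
      have h3 := (key A hA B hB hne).1
      rw [Finset.HasAntidiagonal.mem_antidiagonal] at hAB
      simp only at hAB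
      rw [hAB] at h3
      exact lt_irrefl _ h3
    · intro h0
      exact absurd (by rw [Finset.HasAntidiagonal.mem_antidiagonal]) h0
  · intro N hN hne
    have hN2 : coeff N (f * f') ≠ 0 := mem_support_iff.1 hN
    rw [coeff_mul] at hN2
    obtain ⟨⟨A, B⟩, hAB, hc⟩ := Finset.exists_ne_zero_of_sum_ne_zero hN2
    rw [Finset.HasAntidiagonal.mem_antidiagonal] at hAB
    simp only at hAB
    have hA : A ∈ f.support := by
      rw [mem_support_iff]
      intro h0
      simp [h0] at hc
    have hB : B ∈ f'.support := by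
      rw [mem_support_iff]
      intro h0
      simp [h0] at hc
    rw [← hAB]
    apply key A hA B hB
    rintro h0
    apply hne
    rw [← hAB, (Prod.mk.inj h0).1, (Prod.mk.inj h0).2]

theorem led_one : L.Led 0 1 := by
  have := L.led_monomial 0
  simpa using this

theorem Led.pow {M : σ →₀ ℕ} {f : MvPolynomial σ k} (h : L.Led M f) (n : ℕ) :
    L.Led (n • M) (f ^ n) := by
  induction n with
  | zero => simpa using L.led_one
  | succ n ih =>
    rw [pow_succ, succ_nsmul]
    exact ih.mul L h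

theorem led_prod (s : Finset ι) (M : ι → σ →₀ ℕ) (f : ι → MvPolynomial σ k)
    (h : ∀ i, L.Led (M i) (f i)) : L.Led (∑ i ∈ s, M i) (∏ i ∈ s, f i) := by
  induction s using Finset.induction_on with
  | empty => simpa using L.led_one
  | insert a s ha ih =>
    rw [Finset.sum_insert ha, Finset.prod_insert ha]
    exact (h a).mul L ih

theorem led_g (i : ι) : L.Led (L.μ i) (L.g i) := ⟨L.g_lead i, L.g_low i⟩

theorem led_gpow (γ : ι → ℕ) : L.Led (L.lin γ) (L.gpow γ) :=
  L.led_prod Finset.univ _ _ fun i => (L.led_g i).pow L (γ i)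

theorem led_wM (M : σ →₀ ℕ) : L.Led M (L.wM M) := by
  have := (L.led_gpow (L.β M)).mul L (L.led_monomial (L.bb M))
  rwa [L.lin_add_bb] at this

/-- a set of exponents closed under `Low`. -/
def LowClosed (S : Set (σ →₀ ℕ)) : Prop := ∀ M ∈ S, ∀ N, L.Low N M → N ∈ S

theorem wM_mem_span_monomial {S : Set (σ →₀ ℕ)} (hS : L.LowClosed S) {M : σ →₀ ℕ} (hM : M ∈ S) :
    L.wM M ∈ Submodule.span k ((fun N => monomial N (1 : k)) '' S) := by
  classical
  rw [(L.wM M).as_sum]
  refine Submodule.sum_mem _ fun N hN => ?_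
  have : monomial N (coeff N (L.wM M)) = coeff N (L.wM M) • monomial N (1 : k) := by
    rw [smul_monomial, smul_eq_mul, mul_one]
  rw [this]
  refine Submodule.smul_mem _ _ (Submodule.subset_span ⟨N, ?_, rfl⟩)
  by_cases hne : N = M
  · rwa [hne]
  · exact hS M hM N ((L.led_wM M).2 N hN hne)

theorem monomial_mem_span_wM {S : Set (σ →₀ ℕ)} (hS : L.LowClosed S) {M : σ →₀ ℕ} (hM : M ∈ S) :
    monomial M (1 : k) ∈ Submodule.span k (L.wM '' S) := by
  classical
  obtain ⟨n, hn⟩ : ∃ n, L.w M = n := ⟨_, rfl⟩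
  induction n using Nat.strong_induction_on generalizing M with
  | _ n ih =>
    have h1 : L.wM M = monomial M (1 : k) +
        ∑ N ∈ (L.wM M).support.erase M, coeff N (L.wM M) • monomial N (1 : k) := by
      conv_lhs => rw [(L.wM M).as_sum]
      have hMs : M ∈ (L.wM M).support := by
        rw [mem_support_iff, (L.led_wM M).1]
        exact one_ne_zero
      rw [← Finset.add_sum_erase _ _ hMs, (L.led_wM M).1]
      congr 1
      refine Finset.sum_congr rfl fun N _ => ?_
      rw [smul_monomial, smul_eq_mul, mul_one]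
    have h2 : monomial M (1 : k) = L.wM M -
        ∑ N ∈ (L.wM M).support.erase M, coeff N (L.wM M) • monomial N (1 : k) := by
      rw [eq_sub_iff_add_eq, ← h1]
    rw [h2]
    refine Submodule.sub_mem _ (Submodule.subset_span ⟨M, hM, rfl⟩) (Submodule.sum_mem _ fun N hN => ?_)
    rw [Finset.mem_erase] at hN
    have hlow := (L.led_wM M).2 N hN.2 hN.1
    refine Submodule.smul_mem _ _ (ih (L.w N) ?_ (hS M hM N hlow) rfl)
    rw [← hn]
    exact hlow.1

theorem span_wM_eq {S : Set (σ →₀ ℕ)} (hS : L.LowClosed S) :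
    Submodule.span k (L.wM '' S) = Submodule.span k ((fun N => monomial N (1 : k)) '' S) := by
  apply le_antisymm
  · rw [Submodule.span_le]
    rintro _ ⟨M, hM, rfl⟩
    exact L.wM_mem_span_monomial hS hM
  · rw [Submodule.span_le]
    rintro _ ⟨M, hM, rfl⟩
    exact L.monomial_mem_span_wM hS hM

theorem linearIndependent_wM : LinearIndependent k L.wM := by
  classical
  rw [linearIndependent_iff']
  intro s c hc
  by_contra hne
  push Not at hne
  obtain ⟨M1, hM1s, hM1⟩ := hne
  obtain ⟨M0, hM0, hmax⟩ := Finset.exists_max_image (s.filter fun M => c M ≠ 0) L.w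
    ⟨M1, Finset.mem_filter.2 ⟨hM1s, hM1⟩⟩
  rw [Finset.mem_filter] at hM0
  have h1 := congrArg (coeff M0) hc
  rw [coeff_sum, coeff_zero, Finset.sum_eq_single M0] at h1
  · rw [coeff_smul, (L.led_wM M0).1, smul_eq_mul, mul_one] at h1
    exact hM0.2 h1
  · intro M hM hne
    rw [coeff_smul, smul_eq_mul]
    by_cases hcM : c M = 0
    · rw [hcM, zero_mul]
    · have h2 := hmax M (Finset.mem_filter.2 ⟨hM, hcM⟩)
      have h3 : coeff M0 (L.wM M) = 0 := by
        by_contra h4
        have h5 := (L.led_wM M).2 M0 (mem_support_iff.2 h4) (Ne.symm hne)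
        exact absurd h5.1 (not_lt.2 h2)
      rw [h3, mul_zero]
  · intro h
    exact absurd hM0.1 h

theorem span_wM_top : ⊤ ≤ Submodule.span k (Set.range L.wM) := by
  intro f _
  rw [f.as_sum]
  refine Submodule.sum_mem _ fun N _ => ?_
  have h1 : monomial N (coeff N f) = coeff N f • monomial N (1 : k) := by
    rw [smul_monomial, smul_eq_mul, mul_one]
  rw [h1]
  refine Submodule.smul_mem _ _ ?_
  have := L.monomial_mem_span_wM (S := Set.univ) (fun _ _ _ _ => Set.mem_univ _) (Set.mem_univ N)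
  rwa [Set.image_univ] at this

/-- the adapted basis. -/
noncomputable def basis : Module.Basis (σ →₀ ℕ) k (MvPolynomial σ k) :=
  Module.Basis.mk L.linearIndependent_wM L.span_wM_top

@[simp] theorem basis_apply (M : σ →₀ ℕ) : L.basis M = L.wM M := by
  unfold basis
  rw [Module.Basis.mk_apply]

/-- the coordinate subspace attached to a set of exponents. -/
noncomputable def W (S : Set (σ →₀ ℕ)) : Submodule k (MvPolynomial σ k) :=
  Submodule.span k (L.wM '' S)

theorem mem_W {S : Set (σ →₀ ℕ)} {f : MvPolynomial σ k} :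
    f ∈ L.W S ↔ ∀ M, L.basis.repr f M ≠ 0 → M ∈ S := by
  have h : L.W S = Submodule.span k (L.basis '' S) := by
    unfold W
    congr 1
    ext x
    simp
  rw [h, Module.Basis.mem_span_image]
  constructor
  · intro h1 M hM
    exact h1 (Finsupp.mem_support_iff.2 hM)
  · intro h1 M hM
    exact h1 M (Finsupp.mem_support_iff.1 hM)

theorem W_mono {S T : Set (σ →₀ ℕ)} (h : S ⊆ T) : L.W S ≤ L.W T :=
  Submodule.span_mono (Set.image_mono h)

theorem wM_mem_W {S : Set (σ →₀ ℕ)} {M : σ →₀ ℕ} (h : M ∈ S) : L.wM M ∈ L.W S :=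
  Submodule.subset_span ⟨M, h, rfl⟩

theorem W_univ : L.W Set.univ = ⊤ := by
  rw [eq_top_iff]
  intro f _
  rw [mem_W]
  intro M _
  exact Set.mem_univ M

theorem W_le_iff {S : Set (σ →₀ ℕ)} {P : Submodule k (MvPolynomial σ k)} :
    L.W S ≤ P ↔ ∀ M ∈ S, L.wM M ∈ P := by
  unfold W
  rw [Submodule.span_le]
  constructor
  · intro h M hM
    exact h ⟨M, hM, rfl⟩
  · rintro h _ ⟨M, hM, rfl⟩
    exact h M hM

theorem repr_gpow_mul (γ : ι → ℕ) (f : MvPolynomial σ k) (M : σ →₀ ℕ) :
    L.basis.repr (L.gpow γ * f) (M + L.lin γ) = L.basis.repr f M := by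
  classical
  have hlin : ∀ f : MvPolynomial σ k, L.basis.repr (L.gpow γ * f) =
      (L.basis.repr f).mapDomain (· + L.lin γ) := by
    intro f
    have key : (L.basis.repr.toLinearMap ∘ₗ LinearMap.mulLeft k (L.gpow γ)) =
        (Finsupp.lmapDomain k k (· + L.lin γ)) ∘ₗ L.basis.repr.toLinearMap := by
      refine L.basis.ext fun M => ?_
      simp only [LinearMap.coe_comp, LinearEquiv.coe_coe, Function.comp_apply,
        LinearMap.mulLeft_apply, Module.Basis.repr_self, Finsupp.lmapDomain_apply,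
        Finsupp.mapDomain_single]
      rw [basis_apply, gpow_mul_wM, ← basis_apply, Module.Basis.repr_self]
    exact LinearMap.congr_fun key f
  rw [hlin]
  exact Finsupp.mapDomain_apply (add_left_injective (L.lin γ)) _ _

theorem gpow_mul_mem_W {γ : ι → ℕ} {S : Set (σ →₀ ℕ)} {f : MvPolynomial σ k}
    (h : f ∈ L.W {M | M + L.lin γ ∈ S}) : L.gpow γ * f ∈ L.W S := by
  have h1 : L.W {M | M + L.lin γ ∈ S} ≤ (L.W S).comap (LinearMap.mulLeft k (L.gpow γ)) := by
    rw [W_le_iff]
    intro M hM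
    simp only [Submodule.mem_comap, LinearMap.mulLeft_apply, gpow_mul_wM]
    exact L.wM_mem_W hM
  exact h1 h

theorem mem_W_of_gpow_mul {γ : ι → ℕ} {S : Set (σ →₀ ℕ)} {f : MvPolynomial σ k}
    (h : L.gpow γ * f ∈ L.W S) : f ∈ L.W {M | M + L.lin γ ∈ S} := by
  rw [mem_W] at h ⊢
  intro M hM
  apply h (M + L.lin γ)
  rwa [repr_gpow_mul]

end Lead

/-- `Lead` together with a decreasing family `S m` of sets of exponents (the monomial ideals
`b_m`). -/
structure Thr (k σ ι : Type*) [Field k] [Fintype ι] [DecidableEq ι] extends Lead k σ ι where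
  S : ℕ → Set (σ →₀ ℕ)
  S_zero : S 0 = Set.univ
  S_anti : ∀ m, S (m + 1) ⊆ S m
  S_up : ∀ m, ∀ M ∈ S m, ∀ N, M + N ∈ S m
  S_low : ∀ m, toLead.LowClosed (S m)
  S_add : ∀ m, ∀ M ∈ S 1, ∀ N ∈ S m, M + N ∈ S (m + 1)
  S_split : ∀ m, ∀ M ∈ S (m + 1), ∃ A ∈ S 1, ∃ B ∈ S m, M = A + B
  S_mu : ∀ m i M, M + μ i ∈ S (m + 1) → M ∈ S m

namespace Thr

variable (L : Thr k σ ι)

theorem S_anti' {m n : ℕ} (h : m ≤ n) : L.S n ⊆ L.S m := by
  induction h with
  | refl => exact le_rfl
  | step _ ih => exact le_trans (L.S_anti _) ih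

theorem S_lin (β : ι → ℕ) (m : ℕ) (M : σ →₀ ℕ) (h : M + L.lin β ∈ L.S m) :
    M ∈ L.S (m - ∑ i, β i) := by
  classical
  obtain ⟨n, hn⟩ : ∃ n, ∑ i, β i = n := ⟨_, rfl⟩
  induction n generalizing β m with
  | zero =>
    have : β = 0 := by
      funext i
      have := Finset.sum_eq_zero_iff.1 hn i (Finset.mem_univ i)
      simpa using this
    subst this
    simpa [Lead.lin] using h
  | succ n ih =>
    obtain ⟨i, hi⟩ : ∃ i, β i ≠ 0 := by
      by_contra h
      push Not at h
      simp [h] at hn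
    set β' : ι → ℕ := fun j => if j = i then β j - 1 else β j with hβ'
    have hβ : β = β' + Pi.single i 1 := by
      funext j
      by_cases h : j = i
      · subst h
        simp [hβ']
        omega
      · simp [hβ', h]
    have hsum : ∑ j, β' j = n := by
      rw [hβ] at hn
      simp only [Pi.add_apply, Finset.sum_add_distrib, Finset.sum_pi_single', Finset.mem_univ,
        if_true] at hn
      omega
    rw [hn]
    rcases m with _ | m
    · rw [Nat.zero_sub, L.S_zero]
      exact Set.mem_univ _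
    · rw [hβ, L.lin_add, L.lin_single, ← add_assoc] at h
      have h2 := ih β' m (L.S_mu m i _ h) hsum
      rw [hsum] at h2
      rwa [Nat.succ_sub_succ]

/-- the monomial ideal `b_m`. -/
noncomputable def bI (m : ℕ) : Ideal (MvPolynomial σ k) :=
  Ideal.span ((fun N => monomial N (1 : k)) '' L.S m)

/-- the ideal generated by the `g i`. -/
noncomputable def gI : Ideal (MvPolynomial σ k) := Ideal.span (Set.range L.g)

/-- the ideal of the counterexample. -/
noncomputable def I : Ideal (MvPolynomial σ k) := L.gI ⊔ L.bI 1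

theorem bI_eq_span (m : ℕ) : (L.bI m).restrictScalars k =
    Submodule.span k ((fun N => monomial N (1 : k)) '' L.S m) := by
  apply le_antisymm
  · intro f hf
    rw [Submodule.restrictScalars_mem] at hf
    unfold bI at hf
    refine Submodule.span_induction (p := fun f _ => f ∈ Submodule.span k
      ((fun N => monomial N (1 : k)) '' L.S m)) ?_ ?_ ?_ ?_ hf
    · intro x hx
      exact Submodule.subset_span hx
    · exact Submodule.zero_mem _
    · intro x y _ _ hx hy
      exact Submodule.add_mem _ hx hy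
    · intro a x _ hx
      have key : ∀ x ∈ Submodule.span k ((fun N => monomial N (1 : k)) '' L.S m), ∀ A,
          monomial A (1 : k) * x ∈ Submodule.span k ((fun N => monomial N (1 : k)) '' L.S m) := by
        intro x hx A
        have hle : Submodule.span k ((fun N => monomial N (1 : k)) '' L.S m) ≤
            (Submodule.span k ((fun N => monomial N (1 : k)) '' L.S m)).comap
              (LinearMap.mulLeft k (monomial A (1 : k))) := by
          rw [Submodule.span_le]
          rintro _ ⟨M, hM, rfl⟩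
          refine Submodule.subset_span ⟨M + A, L.S_up m M hM A, ?_⟩
          simp only [LinearMap.mulLeft_apply, monomial_mul, mul_one]
          rw [add_comm]
        exact hle hx
      rw [smul_eq_mul, a.as_sum, Finset.sum_mul]
      refine Submodule.sum_mem _ fun A _ => ?_
      have : monomial A (coeff A a) * x = coeff A a • (monomial A (1 : k) * x) := by
        rw [← smul_mul_assoc, smul_monomial, smul_eq_mul, mul_one]
      rw [this]
      exact Submodule.smul_mem _ _ (key x hx A)
  · rw [Submodule.span_le]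
    rintro _ ⟨M, hM, rfl⟩
    exact Ideal.subset_span ⟨M, hM, rfl⟩

theorem bI_eq_W (m : ℕ) : (L.bI m).restrictScalars k = L.W (L.S m) := by
  rw [L.bI_eq_span, Lead.W, L.span_wM_eq (L.S_low m)]

theorem mem_bI {m : ℕ} {f : MvPolynomial σ k} : f ∈ L.bI m ↔ f ∈ L.W (L.S m) := by
  rw [← L.bI_eq_W, Submodule.restrictScalars_mem]

/-- total exponent of the `g`'s. -/
noncomputable def tot (M : σ →₀ ℕ) : ℕ := ∑ i, L.β M i

theorem tot_add_lin (M : σ →₀ ℕ) (γ : ι → ℕ) : L.tot (M + L.lin γ) = L.tot M + ∑ i, γ i := by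
  unfold tot
  rw [L.β_add_lin]
  simp [Finset.sum_add_distrib]

/-- the exponent set of `I ^ n`. -/
def C (n : ℕ) : Set (σ →₀ ℕ) := {M | L.bb M ∈ L.S (n - L.tot M)}

theorem gpow_mem_gI_pow (γ : ι → ℕ) : L.gpow γ ∈ L.gI ^ (∑ i, γ i) := by
  unfold Lead.gpow
  have : ∀ s : Finset ι, ∏ i ∈ s, L.g i ^ γ i ∈ L.gI ^ (∑ i ∈ s, γ i) := by
    intro s
    induction s using Finset.induction_on with
    | empty => simp
    | insert a s ha ih =>
      rw [Finset.prod_insert ha, Finset.sum_insert ha, pow_add]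
      have hga : L.g a ∈ L.gI := Ideal.subset_span (Set.mem_range_self a)
      exact Ideal.mul_mem_mul (Ideal.pow_mem_pow hga _) ih
  exact this Finset.univ

theorem bI_le_pow (m : ℕ) : L.bI m ≤ L.bI 1 ^ m := by
  induction m with
  | zero => simp
  | succ m ih =>
    unfold bI
    rw [Ideal.span_le]
    rintro _ ⟨M, hM, rfl⟩
    obtain ⟨A, hA, B, hB, rfl⟩ := L.S_split m M hM
    have : monomial (A + B) (1 : k) = monomial B 1 * monomial A 1 := by
      rw [monomial_mul, mul_one, add_comm]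
    simp only
    rw [this, pow_succ]
    exact Ideal.mul_mem_mul (ih (Ideal.subset_span ⟨B, hB, rfl⟩)) (Ideal.subset_span ⟨A, hA, rfl⟩)

theorem W_C_le (n : ℕ) : L.W (L.C n) ≤ (L.I ^ n).restrictScalars k := by
  rw [L.W_le_iff]
  intro M hM
  rw [Submodule.restrictScalars_mem]
  have h1 : L.gpow (L.β M) ∈ L.I ^ (L.tot M) :=
    Ideal.pow_right_mono (le_sup_left : L.gI ≤ L.I) _ (L.gpow_mem_gI_pow _)
  have h2 : monomial (L.bb M) (1 : k) ∈ L.I ^ (n - L.tot M) :=
    Ideal.pow_right_mono (le_sup_right : L.bI 1 ≤ L.I) _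
      (L.bI_le_pow _ (Ideal.subset_span ⟨_, hM, rfl⟩))
  have h3 := Ideal.mul_mem_mul h1 h2
  rw [← pow_add] at h3
  exact Ideal.pow_le_pow_right (by omega) h3

theorem monomial_mul_mem {A M : σ →₀ ℕ} {n : ℕ} (hA : A ∈ L.S 1) (hM : M ∈ L.C n) :
    monomial A (1 : k) * L.wM M ∈ L.W (L.C (n + 1)) := by
  have h1 : monomial A (1 : k) * L.wM M = L.gpow (L.β M) * monomial (A + L.bb M) 1 := by
    unfold Lead.wM
    have : monomial (A + L.bb M) (1 : k) = monomial A 1 * monomial (L.bb M) 1 := by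
      rw [monomial_mul, mul_one]
    rw [this]
    ring
  rw [h1]
  apply L.gpow_mul_mem_W
  by_cases htot : L.tot M ≤ n
  · have h2 : A + L.bb M ∈ L.S (n - L.tot M + 1) := L.S_add _ _ hA _ hM
    have h3 := L.monomial_mem_span_wM (L.S_low _) h2
    refine L.W_mono ?_ h3
    intro N hN
    simp only [C, Set.mem_ofPred_eq]
    rw [L.bb_add_lin, L.tot_add_lin]
    have h4 := L.S_lin (L.β N) (n - L.tot M + 1) (L.bb N) (by
      rw [add_comm (L.bb N), L.lin_add_bb]
      exact hN)
    refine L.S_anti' ?_ h4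
    unfold tot
    unfold tot at htot
    omega
  · have : L.W {N | N + L.lin (L.β M) ∈ L.C (n + 1)} = ⊤ := by
      rw [eq_top_iff, ← L.W_univ]
      apply L.W_mono
      intro N _
      simp only [C, Set.mem_ofPred_eq]
      rw [L.bb_add_lin, L.tot_add_lin]
      have : n + 1 - (L.tot N + ∑ i, L.β M i) = 0 := by
        unfold tot at htot
        omega
      rw [this, L.S_zero]
      exact Set.mem_univ _
    rw [this]
    exact Submodule.mem_top

theorem g_mul_mem {i : ι} {M : σ →₀ ℕ} {n : ℕ} (hM : M ∈ L.C n) :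
    L.g i * L.wM M ∈ L.W (L.C (n + 1)) := by
  rw [L.g_mul_wM]
  apply L.wM_mem_W
  simp only [C, Set.mem_ofPred_eq] at hM ⊢
  rw [L.bb_add_μ]
  have : L.tot (M + L.μ i) = L.tot M + 1 := by
    have := L.tot_add_lin M (Pi.single i 1)
    rw [L.lin_single] at this
    rw [this]
    simp
  rw [this, Nat.add_sub_add_right]
  exact hM

theorem I_pow_le (n : ℕ) : (L.I ^ n).restrictScalars k ≤ L.W (L.C n) := by
  induction n with
  | zero =>
    have : L.C 0 = Set.univ := by
      ext M
      simp [C, L.S_zero]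
    rw [this, L.W_univ]
    exact le_top
  | succ n ih =>
    intro f hf
    rw [Submodule.restrictScalars_mem, pow_succ'] at hf
    refine Submodule.mul_induction_on (C := fun f => f ∈ L.W (L.C (n + 1))) hf ?_ ?_
    · intro a ha r hr
      -- `a ∈ I`, `r ∈ I ^ n`
      have hgen : ∀ r ∈ L.I ^ n, ∀ x ∈ Set.range L.g ∪ (fun N => monomial N (1 : k)) '' L.S 1,
          x * r ∈ L.W (L.C (n + 1)) := by
        intro r hr x hx
        have hle : L.W (L.C n) ≤ (L.W (L.C (n + 1))).comap (LinearMap.mulLeft k x) := by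
          rw [L.W_le_iff]
          intro M hM
          simp only [Submodule.mem_comap, LinearMap.mulLeft_apply]
          rcases hx with ⟨i, rfl⟩ | ⟨A, hA, rfl⟩
          · exact L.g_mul_mem hM
          · exact L.monomial_mul_mem hA hM
        exact hle (ih hr)
      have haI : a ∈ Ideal.span (Set.range L.g ∪ (fun N => monomial N (1 : k)) '' L.S 1) := by
        rw [Ideal.span_union]
        exact ha
      -- induction on `a`
      have : ∀ r ∈ L.I ^ n, a * r ∈ L.W (L.C (n + 1)) := by
        refine Submodule.span_induction (p := fun a _ => ∀ r ∈ L.I ^ n, a * r ∈ L.W (L.C (n + 1)))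
          ?_ ?_ ?_ ?_ haI
        · intro x hx r hr
          exact hgen r hr x hx
        · intro r _
          rw [zero_mul]
          exact Submodule.zero_mem _
        · intro x y _ _ hx hy r hr
          rw [add_mul]
          exact Submodule.add_mem _ (hx r hr) (hy r hr)
        · intro c x _ hx r hr
          have h2 := hx (c * r) (Ideal.mul_mem_left _ c hr)
          rw [smul_eq_mul]
          convert h2 using 1
          ring
      exact this r hr
    · intro x y hx hy
      exact Submodule.add_mem _ hx hy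

theorem I_pow_eq_W (n : ℕ) : (L.I ^ n).restrictScalars k = L.W (L.C n) :=
  le_antisymm (L.I_pow_le n) (L.W_C_le n)

theorem mem_I_pow {n : ℕ} {f : MvPolynomial σ k} : f ∈ L.I ^ n ↔ f ∈ L.W (L.C n) := by
  rw [← L.I_pow_eq_W, Submodule.restrictScalars_mem]

/-- `(g) + b_m`. -/
noncomputable def D (m : ℕ) : Ideal (MvPolynomial σ k) := L.gI ⊔ L.bI m

/-- for an up-closed set `Q`, the ideal generated by `g^γ`, `γ ∈ Q`. -/
noncomputable def gQ (Q : Set (ι → ℕ)) : Ideal (MvPolynomial σ k) := Ideal.span (L.gpow '' Q)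

theorem gQ_eq_W {Q : Set (ι → ℕ)} (hQ : ∀ γ ∈ Q, ∀ δ, γ ≤ δ → δ ∈ Q) :
    (L.gQ Q).restrictScalars k = L.W {M | L.β M ∈ Q} := by
  apply le_antisymm
  · intro f hf
    rw [Submodule.restrictScalars_mem] at hf
    unfold gQ at hf
    have key : ∀ r, ∀ x ∈ L.gpow '' Q, r * x ∈ L.W {M | L.β M ∈ Q} := by
      rintro r _ ⟨γ, hγ, rfl⟩
      rw [mul_comm]
      apply L.gpow_mul_mem_W
      have : {M | M + L.lin γ ∈ {M | L.β M ∈ Q}} = Set.univ := by
        ext M
        simp only [Set.mem_ofPred_eq, Set.mem_univ, iff_true]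
        rw [L.β_add_lin]
        exact hQ γ hγ _ (le_add_self)
      rw [this, L.W_univ]
      exact Submodule.mem_top
    refine Submodule.span_induction (p := fun f _ => ∀ r, r * f ∈ L.W {M | L.β M ∈ Q})
      ?_ ?_ ?_ ?_ hf 1 |> fun h => by simpa using h
    · intro x hx r
      exact key r x hx
    · intro r
      rw [mul_zero]
      exact Submodule.zero_mem _
    · intro x y _ _ hx hy r
      rw [mul_add]
      exact Submodule.add_mem _ (hx r) (hy r)
    · intro c x _ hx r
      rw [smul_eq_mul, ← mul_assoc]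
      exact hx (r * c)
  · rw [L.W_le_iff]
    intro M hM
    rw [Submodule.restrictScalars_mem]
    unfold Lead.wM
    exact Ideal.mul_mem_right _ _ (Ideal.subset_span ⟨_, hM, rfl⟩)

theorem gI_eq_W : (L.gI).restrictScalars k = L.W {M | L.β M ≠ 0} := by
  have h := L.gQ_eq_W (Q := {γ | γ ≠ 0}) (by
    intro γ hγ δ h h0
    apply hγ
    subst h0
    exact le_antisymm h (by intro i; exact Nat.zero_le _))
  have h2 : L.gQ {γ | γ ≠ 0} = L.gI := by
    apply le_antisymm
    · unfold gQ
      rw [Ideal.span_le]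
      rintro _ ⟨γ, hγ, rfl⟩
      obtain ⟨i, hi⟩ : ∃ i, γ i ≠ 0 := by
        by_contra h
        push Not at h
        exact hγ (funext h)
      unfold Lead.gpow
      rw [← Finset.mul_prod_erase _ _ (Finset.mem_univ i)]
      refine Ideal.mul_mem_right _ _ ?_
      obtain ⟨n, hn⟩ := Nat.exists_eq_succ_of_ne_zero hi
      rw [hn, pow_succ']
      exact Ideal.mul_mem_right _ _ (Ideal.subset_span ⟨i, rfl⟩)
    · unfold gI
      rw [Ideal.span_le]
      rintro _ ⟨i, rfl⟩
      rw [← L.gpow_single]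
      refine Ideal.subset_span ⟨_, ?_, rfl⟩
      intro h
      have := congrFun h i
      simp at this
  rw [h2] at h
  exact h

theorem W_sup (S T : Set (σ →₀ ℕ)) : L.W S ⊔ L.W T = L.W (S ∪ T) := by
  unfold Lead.W
  rw [← Submodule.span_union, Set.image_union]

theorem D_eq_W (m : ℕ) : (L.D m).restrictScalars k = L.W {M | L.β M ≠ 0 ∨ L.bb M ∈ L.S m} := by
  have h : (L.D m).restrictScalars k = L.gI.restrictScalars k ⊔ (L.bI m).restrictScalars k := by
    unfold D
    ext f
    simp only [Submodule.restrictScalars_mem, Submodule.mem_sup]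
  rw [h, L.gI_eq_W, L.bI_eq_W, L.W_sup]
  congr 1
  ext M
  simp only [Set.mem_union, Set.mem_ofPred_eq]
  by_cases h0 : L.β M = 0
  · simp [h0, L.bb_of_β_eq_zero h0]
  · simp [h0]

theorem mem_D {m : ℕ} {f : MvPolynomial σ k} :
    f ∈ L.D m ↔ f ∈ L.W {M | L.β M ≠ 0 ∨ L.bb M ∈ L.S m} := by
  rw [← L.D_eq_W, Submodule.restrictScalars_mem]

/-- the filtration ideals `J_Q = I^n + (g^γ, γ ∈ Q)`. -/
noncomputable def J (n : ℕ) (Q : Set (ι → ℕ)) : Ideal (MvPolynomial σ k) := L.I ^ n ⊔ L.gQ Q

theorem J_eq_W (n : ℕ) {Q : Set (ι → ℕ)} (hQ : ∀ γ ∈ Q, ∀ δ, γ ≤ δ → δ ∈ Q) :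
    (L.J n Q).restrictScalars k = L.W (L.C n ∪ {M | L.β M ∈ Q}) := by
  have h : (L.J n Q).restrictScalars k = (L.I ^ n).restrictScalars k ⊔
      (L.gQ Q).restrictScalars k := by
    unfold J
    ext f
    simp only [Submodule.restrictScalars_mem, Submodule.mem_sup]
  rw [h, L.I_pow_eq_W, L.gQ_eq_W hQ, L.W_sup]

theorem mem_J {n : ℕ} {Q : Set (ι → ℕ)} (hQ : ∀ γ ∈ Q, ∀ δ, γ ≤ δ → δ ∈ Q)
    {f : MvPolynomial σ k} : f ∈ L.J n Q ↔ f ∈ L.W (L.C n ∪ {M | L.β M ∈ Q}) := by
  rw [← L.J_eq_W n hQ, Submodule.restrictScalars_mem]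

/-- one step of the filtration: `J_{Q ∪ {γ}} = g^γ R + J_Q`. -/
theorem J_insert (n : ℕ) (Q : Set (ι → ℕ)) (γ : ι → ℕ) :
    L.J n (insert γ Q) = Ideal.span {L.gpow γ} ⊔ L.J n Q := by
  unfold J gQ
  rw [Set.image_insert_eq, Ideal.span_insert]
  ac_rfl

/-- one step of the filtration: `g^γ D_{n-|γ|} ⊆ J_Q`. -/
theorem gpow_mul_mem_J {n : ℕ} {Q : Set (ι → ℕ)} (hQ : ∀ γ ∈ Q, ∀ δ, γ ≤ δ → δ ∈ Q)
    {γ : ι → ℕ} (hγ : ∀ δ, γ < δ → δ ∈ Q) {f : MvPolynomial σ k}
    (hf : f ∈ L.D (n - ∑ i, γ i)) : L.gpow γ * f ∈ L.J n Q := by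
  rw [L.mem_J hQ]
  apply L.gpow_mul_mem_W
  rw [L.mem_D] at hf
  refine L.W_mono ?_ hf
  intro M hM
  simp only [Set.mem_ofPred_eq, Set.mem_union, C] at hM ⊢
  rw [L.bb_add_lin, L.tot_add_lin, L.β_add_lin]
  by_cases h0 : L.β M = 0
  · rcases hM with h | h
    · exact absurd h0 h
    · left
      have : L.tot M = 0 := by
        unfold tot
        rw [h0]
        simp
      rw [this, zero_add]
      exact h
  · right
    apply hγ
    refine lt_of_le_of_ne le_add_self ?_
    intro h
    apply h0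
    have : L.β M + γ = 0 + γ := by rw [← h, zero_add]
    exact add_right_cancel this

/-- one step of the filtration: `(J_Q : g^γ) = D_{n-|γ|}`. -/
theorem mem_D_of_gpow_mul {n : ℕ} {Q : Set (ι → ℕ)} (hQ : ∀ γ ∈ Q, ∀ δ, γ ≤ δ → δ ∈ Q)
    {γ : ι → ℕ} (hγ : γ ∉ Q) {f : MvPolynomial σ k}
    (hf : L.gpow γ * f ∈ L.J n Q) : f ∈ L.D (n - ∑ i, γ i) := by
  rw [L.mem_J hQ] at hf
  have h := L.mem_W_of_gpow_mul hf
  rw [L.mem_D]
  refine L.W_mono ?_ h
  intro M hM
  simp only [Set.mem_ofPred_eq, Set.mem_union, C] at hM ⊢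
  rw [L.bb_add_lin, L.tot_add_lin, L.β_add_lin] at hM
  by_cases h0 : L.β M = 0
  · right
    rcases hM with h | h
    · have : L.tot M = 0 := by
        unfold tot
        rw [h0]
        simp
      rwa [this, zero_add] at h
    · rw [h0, zero_add] at h
      exact absurd h hγ
  · left
    exact h0

theorem J_le_of_sum (n : ℕ) : L.J n {γ | n ≤ ∑ i, γ i} = L.I ^ n := by
  unfold J
  rw [sup_eq_left]
  unfold gQ
  rw [Ideal.span_le]
  rintro _ ⟨γ, hγ, rfl⟩
  exact Ideal.pow_le_pow_right hγ
    (Ideal.pow_right_mono (le_sup_left : L.gI ≤ L.I) _ (L.gpow_mem_gI_pow γ))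

theorem J_zero (n : ℕ) : L.J n {γ | 0 ≤ ∑ i, γ i} = ⊤ := by
  unfold J
  rw [eq_top_iff]
  refine le_trans ?_ le_sup_right
  unfold gQ
  have : (1 : MvPolynomial σ k) ∈ Ideal.span (L.gpow '' {γ : ι → ℕ | 0 ≤ ∑ i, γ i}) := by
    refine Ideal.subset_span ⟨0, by simp, ?_⟩
    simp [Lead.gpow]
  rw [(Ideal.eq_top_iff_one _).2 this]

theorem J_one (n : ℕ) : L.J n {γ | 1 ≤ ∑ i, γ i} = L.D n := by
  have hQ : ∀ γ ∈ {γ : ι → ℕ | 1 ≤ ∑ i, γ i}, ∀ δ, γ ≤ δ → δ ∈ {γ : ι → ℕ | 1 ≤ ∑ i, γ i} := by
    intro γ hγ δ h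
    simp only [Set.mem_ofPred_eq] at hγ ⊢
    exact le_trans hγ (Finset.sum_le_sum fun i _ => h i)
  ext f
  rw [L.mem_J hQ, L.mem_D]
  have : (L.C n ∪ {M | L.β M ∈ {γ : ι → ℕ | 1 ≤ ∑ i, γ i}}) =
      {M | L.β M ≠ 0 ∨ L.bb M ∈ L.S n} := by
    ext M
    simp only [Set.mem_union, C, Set.mem_ofPred_eq]
    by_cases h0 : L.β M = 0
    · have h1 : L.tot M = 0 := by
        unfold tot
        rw [h0]
        simp
      simp [h0, h1]
    · have h1 : 1 ≤ ∑ i, L.β M i := by
        by_contra hc
        apply h0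
        funext i
        have h2 : ∑ i, L.β M i = 0 := by omega
        exact Finset.sum_eq_zero_iff.1 h2 i (Finset.mem_univ i)
      simp [h0, h1]
  rw [this]

/-- induction along the filtration from `I ^ n` up to `J_{|γ| ≥ j}` in single steps. -/
theorem chain_induction (n j : ℕ) (P : Ideal (MvPolynomial σ k) → Prop) (h0 : P (L.I ^ n))
    (hstep : ∀ (Q : Set (ι → ℕ)) (γ : ι → ℕ), (∀ γ ∈ Q, ∀ δ, γ ≤ δ → δ ∈ Q) →
      γ ∉ Q → (∀ δ, γ < δ → δ ∈ Q) → j ≤ ∑ i, γ i → ∑ i, γ i < n → P (L.J n Q) →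
      P (L.J n (insert γ Q))) (hj : j ≤ n) :
    P (L.J n {γ | j ≤ ∑ i, γ i}) := by
  classical
  -- descending induction on the level
  have main : ∀ d, d ≤ n - j → P (L.J n {γ | n - d ≤ ∑ i, γ i}) := by
    intro d
    induction d with
    | zero =>
      intro _
      rw [Nat.sub_zero, L.J_le_of_sum]
      exact h0
    | succ d ih =>
      intro hd
      have ih' := ih (by omega)
      set e := n - (d + 1) with he
      have he1 : n - d = e + 1 := by omega
      rw [he1] at ih'
      -- the finite set of exponents of total degree `e`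
      have hfin : {γ : ι → ℕ | ∑ i, γ i = e}.Finite := by
        refine Set.Finite.subset (Set.finite_Iic (fun _ : ι => e)) ?_
        intro γ hγ i
        rw [← (hγ : ∑ i, γ i = e)]
        exact Finset.single_le_sum (f := γ) (fun _ _ => Nat.zero_le _) (Finset.mem_univ i)
      have key : ∀ F : Finset (ι → ℕ), (∀ γ ∈ F, ∑ i, γ i = e) →
          P (L.J n ({γ | e + 1 ≤ ∑ i, γ i} ∪ (F : Set (ι → ℕ)))) := by
        intro F
        induction F using Finset.induction_on with
        | empty =>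
          intro _
          simpa using ih'
        | insert a F ha ihF =>
          intro hF
          have h1 := ihF fun γ hγ => hF γ (Finset.mem_insert_of_mem hγ)
          have ha' : ∑ i, a i = e := hF a (Finset.mem_insert_self a F)
          have hset : ({γ : ι → ℕ | e + 1 ≤ ∑ i, γ i} ∪ ((insert a F : Finset (ι → ℕ)) : Set (ι → ℕ)))
              = insert a ({γ : ι → ℕ | e + 1 ≤ ∑ i, γ i} ∪ (F : Set (ι → ℕ))) := by
            ext γ
            simp only [Finset.coe_insert, Set.mem_union, Set.mem_insert_iff, Set.mem_ofPred_eq]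
            tauto
          rw [hset]
          have hlt : ∀ γ δ : ι → ℕ, γ ≤ δ → γ ≠ δ → ∑ i, γ i < ∑ i, δ i := by
            intro γ δ h hne
            obtain ⟨i, hi⟩ : ∃ i, γ i ≠ δ i := by
              by_contra hc
              push Not at hc
              exact hne (funext hc)
            exact Finset.sum_lt_sum (fun i _ => h i)
              ⟨i, Finset.mem_univ i, lt_of_le_of_ne (h i) hi⟩
          refine hstep _ a ?_ ?_ ?_ ?_ ?_ h1
          · intro γ hγ δ h
            by_cases hne : γ = δ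
            · rwa [← hne]
            · have h2 := hlt γ δ h hne
              left
              simp only [Set.mem_ofPred_eq]
              rcases hγ with hγ | hγ
              · simp only [Set.mem_ofPred_eq] at hγ
                omega
              · have := hF γ (Finset.mem_insert_of_mem hγ)
                omega
          · intro h
            rcases h with h | h
            · simp only [Set.mem_ofPred_eq] at h
              omega
            · exact ha h
          · intro δ h
            left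
            simp only [Set.mem_ofPred_eq]
            have := hlt a δ h.le h.ne
            omega
          · omega
          · omega
      have h2 := key hfin.toFinset (by
        intro γ hγ
        simpa using hγ)
      have h3 : ({γ : ι → ℕ | e + 1 ≤ ∑ i, γ i} ∪ (hfin.toFinset : Set (ι → ℕ))) =
          {γ | e ≤ ∑ i, γ i} := by
        ext γ
        simp only [Set.Finite.coe_toFinset, Set.mem_union, Set.mem_ofPred_eq]
        omega
      rw [h3] at h2
      exact h2
  have := main (n - j) le_rfl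
  have h4 : n - (n - j) = j := by omega
  rwa [h4] at this

/-- the ideal generated by some of the `g i` is a coordinate subspace. -/
theorem gA_eq_W (A : Set ι) : (Ideal.span (L.g '' A)).restrictScalars k =
    L.W {M | ∃ i ∈ A, L.β M i ≠ 0} := by
  have h := L.gQ_eq_W (Q := {γ | ∃ i ∈ A, γ i ≠ 0}) (by
    rintro γ ⟨i, hi, hγ⟩ δ h
    refine ⟨i, hi, fun h0 => hγ ?_⟩
    have h1 : γ i ≤ δ i := h i
    omega)
  have h2 : L.gQ {γ | ∃ i ∈ A, γ i ≠ 0} = Ideal.span (L.g '' A) := by
    apply le_antisymm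
    · unfold gQ
      rw [Ideal.span_le]
      rintro _ ⟨γ, ⟨i, hiA, hi⟩, rfl⟩
      unfold Lead.gpow
      rw [← Finset.mul_prod_erase _ _ (Finset.mem_univ i)]
      refine Ideal.mul_mem_right _ _ ?_
      obtain ⟨n, hn⟩ := Nat.exists_eq_succ_of_ne_zero hi
      rw [hn, pow_succ']
      exact Ideal.mul_mem_right _ _ (Ideal.subset_span ⟨i, hiA, rfl⟩)
    · rw [Ideal.span_le]
      rintro _ ⟨i, hi, rfl⟩
      rw [← L.gpow_single]
      refine Ideal.subset_span ⟨_, ⟨i, hi, ?_⟩, rfl⟩
      simp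
  rw [h2] at h
  exact h

theorem mem_gA {A : Set ι} {f : MvPolynomial σ k} : f ∈ Ideal.span (L.g '' A) ↔
    f ∈ L.W {M | ∃ i ∈ A, L.β M i ≠ 0} := by
  rw [← L.gA_eq_W, Submodule.restrictScalars_mem]

/-- `g i` is a nonzerodivisor modulo the other `g j`. -/
theorem g_regular {A : Set ι} {i : ι} (hi : i ∉ A) {f : MvPolynomial σ k}
    (h : L.g i * f ∈ Ideal.span (L.g '' A)) : f ∈ Ideal.span (L.g '' A) := by
  rw [L.mem_gA] at h ⊢
  rw [← L.gpow_single] at h
  have h2 := L.mem_W_of_gpow_mul h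
  refine L.W_mono ?_ h2
  rintro M ⟨j, hj, hM⟩
  refine ⟨j, hj, ?_⟩
  rw [L.β_add_lin, Pi.add_apply] at hM
  have hji : j ≠ i := fun h => hi (h ▸ hj)
  rwa [Pi.single_eq_of_ne hji, add_zero] at hM

/-- decomposition of the elements of `b_m ∩ (g)`. -/
theorem bI_inf_gI (m : ℕ) (i₀ : ι) {h : MvPolynomial σ k} (hb : h ∈ L.bI m) (hG : h ∈ L.gI) :
    ∃ q : MvPolynomial σ k, (∀ M ∈ q.support, M + L.μ i₀ ∈ L.S m) ∧
      h - L.g i₀ * q ∈ Ideal.span (L.g '' {i | i ≠ i₀}) := by
  classical
  rw [L.mem_bI, Lead.mem_W] at hb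
  have hG' : h ∈ L.W {M | L.β M ≠ 0} := by
    rw [← L.gI_eq_W, Submodule.restrictScalars_mem]
    exact hG
  rw [Lead.mem_W] at hG'
  -- general statement on spans
  have hspan : h ∈ L.W (L.S m ∩ {M | L.β M ≠ 0}) := by
    rw [Lead.mem_W]
    exact fun M hM => ⟨hb M hM, hG' M hM⟩
  clear hb hG hG'
  unfold Lead.W at hspan
  refine Submodule.span_induction (p := fun h _ => ∃ q : MvPolynomial σ k,
    (∀ M ∈ q.support, M + L.μ i₀ ∈ L.S m) ∧
      h - L.g i₀ * q ∈ Ideal.span (L.g '' {i | i ≠ i₀})) ?_ ?_ ?_ ?_ hspan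
  · rintro _ ⟨M, ⟨hMS, hMβ⟩, rfl⟩
    by_cases hex : ∃ i, i ≠ i₀ ∧ L.β M i ≠ 0
    · refine ⟨0, by simp, ?_⟩
      rw [mul_zero, sub_zero, L.mem_gA]
      apply L.wM_mem_W
      obtain ⟨i, hi, hi'⟩ := hex
      exact ⟨i, hi, hi'⟩
    · push Not at hex
      have h0 : L.β M i₀ ≠ 0 := by
        intro h0
        apply hMβ
        funext i
        by_cases hi : i = i₀
        · rw [hi]; exact h0
        · exact hex i hi
      have hle : L.μ i₀ ≤ M := by
        have h1 := (le_mult_iff (L.μ_ne i₀) (M := M) (n := 1)).1 (Nat.one_le_iff_ne_zero.2 h0)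
        rwa [one_smul] at h1
      have hM : M - L.μ i₀ + L.μ i₀ = M := tsub_add_cancel_of_le hle
      refine ⟨L.wM (M - L.μ i₀), ?_, ?_⟩
      · intro N hN
        by_cases hne : N = M - L.μ i₀
        · rw [hne, hM]
          exact hMS
        · have hlow := (L.led_wM (M - L.μ i₀)).2 N hN hne
          refine L.S_low m M hMS _ ⟨?_, fun θ hθ => ?_⟩
          · rw [← hM, map_add, map_add]
            exact Nat.add_lt_add_right hlow.1 _
          · rw [← hM, map_add, map_add]
            exact add_le_add_left (hlow.2 θ hθ) _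
      · rw [L.g_mul_wM, hM, sub_self]
        exact Ideal.zero_mem _
  · exact ⟨0, by simp, by simp⟩
  · rintro x y _ _ ⟨q, hq, hx⟩ ⟨q', hq', hy⟩
    refine ⟨q + q', ?_, ?_⟩
    · intro M hM
      rcases Finset.mem_union.1 (support_add hM) with h | h
      · exact hq M h
      · exact hq' M h
    · have := Ideal.add_mem _ hx hy
      convert this using 1
      ring
  · rintro a x _ ⟨q, hq, hx⟩
    refine ⟨a • q, ?_, ?_⟩
    · intro M hM
      exact hq M (support_smul hM)
    · have := Ideal.mul_mem_left _ (MvPolynomial.C a) hx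
      convert this using 1
      rw [smul_eq_C_mul, smul_eq_C_mul]
      ring

end Thr

end Pool.Agent.Helper19.BasisE
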