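import Mathlib

/-!
# Abstract Čech cochains with values in subquotients of a fixed space

Part A for MP_430249_ag.  Cochains are functions `c : Finset V → E`; the differential is
`(D c) s = ∑ v ∈ s, ± c (s.erase v)`.  For a pair `B ≤ A` of monotone families of subspaces,
`Zc A B p` are the `p`-cocycles and `Bc A B p` the `p`-coboundaries of the complex
`⨁_{card s = p} A s / B s`.  `SR b Z B` is the relation `Z ≤ B` (for `b = False`) or
`Z` is contained in `B` up to finite dimension (`b = True`).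
-/

set_option linter.unusedSectionVars false

namespace Pool.Agent.Helper19.Cech

open Finset

section SR

variable {k X Y : Type*} [Field k] [AddCommGroup X] [Module k X] [AddCommGroup Y] [Module k Y]

/-- `Z ⊆ B` (if `b` is false), resp. `Z ⊆ B` up to a finite dimensional space. -/
def SR (b : Prop) (Z B : Submodule k X) : Prop :=
  ∃ D : Submodule k X, FiniteDimensional k D ∧ (¬ b → D = ⊥) ∧ Z ≤ B ⊔ D

variable {b : Prop}

theorem SR.of_le {Z B : Submodule k X} (h : Z ≤ B) : SR b Z B :=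
  ⟨⊥, inferInstance, fun _ => rfl, by simpa using h⟩

theorem SR_false {Z B : Submodule k X} : SR False Z B ↔ Z ≤ B := by
  constructor
  · rintro ⟨D, _, h2, h3⟩
    rw [h2 not_false, sup_bot_eq] at h3
    exact h3
  · exact SR.of_le

theorem SR.trans {Z Y B : Submodule k X} (h : SR b Z Y) (h' : SR b Y B) : SR b Z B := by
  obtain ⟨D, hD, hb, hZ⟩ := h
  obtain ⟨D', hD', hb', hY⟩ := h'
  refine ⟨D ⊔ D', inferInstance, ?_, ?_⟩
  · intro hb0
    rw [hb hb0, hb' hb0, sup_bot_eq]
  · refine le_trans hZ (sup_le (le_trans hY ?_) ?_)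
    · exact sup_le_sup_left le_sup_right _
    · exact le_trans le_sup_left le_sup_right

theorem SR.mono {Z B Z' B' : Submodule k X} (h : SR b Z B) (hZ : Z' ≤ Z) (hB : B ≤ B') :
    SR b Z' B' := by
  obtain ⟨D, hD, hb, h1⟩ := h
  exact ⟨D, hD, hb, le_trans hZ (le_trans h1 (sup_le_sup_right hB _))⟩

theorem SR.sup {Z B : Submodule k X} (h : SR b Z B) (C : Submodule k X) :
    SR b (Z ⊔ C) (B ⊔ C) := by
  obtain ⟨D, hD, hb, h1⟩ := h
  refine ⟨D, hD, hb, sup_le (le_trans h1 ?_) ?_⟩
  · exact sup_le_sup_right le_sup_left _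
  · exact le_trans le_sup_right le_sup_left

theorem SR.map {Z B : Submodule k X} (h : SR b Z B) (f : X →ₗ[k] Y) :
    SR b (Z.map f) (B.map f) := by
  obtain ⟨D, hD, hb, h1⟩ := h
  refine ⟨D.map f, inferInstance, fun h0 => by rw [hb h0, Submodule.map_bot], ?_⟩
  rw [← Submodule.map_sup]
  exact Submodule.map_mono h1

theorem SR.comap {Z : Submodule k X} {B : Submodule k Y} {f : X →ₗ[k] Y}
    (h : SR b (Z.map f) B) : SR b Z (Z ⊓ B.comap f) := by
  obtain ⟨D, hD, hb, h1⟩ := h
  by_cases h0 : b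
  · -- choose a finite dimensional complement
    let g : Z →ₗ[k] (Y ⧸ B) := B.mkQ ∘ₗ f ∘ₗ Z.subtype
    have hr : LinearMap.range g ≤ D.map B.mkQ := by
      rintro _ ⟨z, rfl⟩
      have hz : f z ∈ B ⊔ D := h1 ⟨z, z.2, rfl⟩
      obtain ⟨y, hy, d, hd, hyd⟩ := Submodule.mem_sup.1 hz
      refine ⟨d, hd, ?_⟩
      simp only [g, LinearMap.coe_comp, Function.comp_apply, Submodule.coe_subtype]
      rw [← hyd, map_add]
      have : B.mkQ y = 0 := by simpa using hy
      rw [this, zero_add]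
    have hfin : FiniteDimensional k (LinearMap.range g) :=
      Submodule.finiteDimensional_of_le hr
    obtain ⟨C, hC⟩ := Submodule.exists_isCompl (LinearMap.ker g)
    have hCfin : FiniteDimensional k C := by
      have e : (Z ⧸ LinearMap.ker g) ≃ₗ[k] C := Submodule.quotientEquivOfIsCompl _ _ hC
      have e2 : (Z ⧸ LinearMap.ker g) ≃ₗ[k] LinearMap.range g := g.quotKerEquivRange
      exact Module.Finite.equiv (e2.symm.trans e)
    refine ⟨C.map Z.subtype, inferInstance, fun h => absurd h0 h, ?_⟩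
    intro z hz
    have h2 : (⟨z, hz⟩ : Z) ∈ LinearMap.ker g ⊔ C := by
      rw [hC.sup_eq_top]
      exact Submodule.mem_top
    obtain ⟨y, hy, c, hc, hyc⟩ := Submodule.mem_sup.1 h2
    rw [Submodule.mem_sup]
    refine ⟨y, ⟨y.2, ?_⟩, c, ⟨c, hc, rfl⟩, ?_⟩
    · have : g y = 0 := hy
      simpa [g] using this
    · have := congrArg (Z.subtype) hyc
      simpa using this
  · rw [hb h0, sup_bot_eq] at h1
    refine SR.of_le ?_
    intro z hz
    exact ⟨hz, h1 ⟨z, hz, rfl⟩⟩

theorem SR.inf {Z B : Submodule k X} (h : SR b Z B) : SR b Z (Z ⊓ B) := by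
  have h1 : SR b (Z.map LinearMap.id) B := by rwa [Submodule.map_id]
  simpa using h1.comap

end SR

section D

variable {k V E E' : Type*} [Field k] [LinearOrder V] [AddCommGroup E] [Module k E]
  [AddCommGroup E'] [Module k E']

/-- the sign `(-1)^#{w ∈ s | w < v}`. -/
def sg (v : V) (s : Finset V) : ℤ := (-1) ^ (s.filter (· < v)).card

theorem sg_mul_self (v : V) (s : Finset V) : sg v s * sg v s = 1 := by
  unfold sg
  rw [← mul_pow]
  simp

theorem sg_erase_of_lt {v w : V} {s : Finset V} (hv : v ∈ s) (h : v < w) :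
    sg w (s.erase v) = - sg w s := by
  unfold sg
  have h1 : (s.erase v).filter (· < w) = (s.filter (· < w)).erase v := by
    ext u
    simp only [mem_filter, mem_erase]
    tauto
  rw [h1]
  have hv' : v ∈ s.filter (· < w) := mem_filter.2 ⟨hv, h⟩
  rw [← Finset.card_erase_add_one hv', pow_succ]
  ring

theorem sg_erase_of_not_lt {v w : V} {s : Finset V} (h : ¬ v < w) :
    sg w (s.erase v) = sg w s := by
  unfold sg
  congr 2
  ext u
  simp only [mem_filter, mem_erase]
  constructor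
  · rintro ⟨⟨_, h2⟩, h3⟩
    exact ⟨h2, h3⟩
  · rintro ⟨h2, h3⟩
    refine ⟨⟨?_, h2⟩, h3⟩
    rintro rfl
    exact h h3

theorem sg_anti {v w : V} {s : Finset V} (hv : v ∈ s) (hw : w ∈ s) (hne : v ≠ w) :
    sg v s * sg w (s.erase v) = - (sg w s * sg v (s.erase w)) := by
  rcases lt_or_gt_of_ne hne with h | h
  · rw [sg_erase_of_lt hv h, sg_erase_of_not_lt (not_lt.2 h.le)]
    ring
  · rw [sg_erase_of_not_lt (not_lt.2 h.le), sg_erase_of_lt hw h]
    ring

/-- the Čech differential. -/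
def D (k : Type*) {V E : Type*} [Field k] [LinearOrder V] [AddCommGroup E] [Module k E] :
    (Finset V → E) →ₗ[k] (Finset V → E) where
  toFun c s := ∑ v ∈ s, sg v s • c (s.erase v)
  map_add' c c' := by
    funext s
    simp only [Pi.add_apply, smul_add, Finset.sum_add_distrib]
  map_smul' a c := by
    funext s
    simp only [Pi.smul_apply, RingHom.id_apply, Finset.smul_sum]
    refine Finset.sum_congr rfl fun v _ => ?_
    rw [smul_comm]

theorem D_apply (c : Finset V → E) (s : Finset V) :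
    D k c s = ∑ v ∈ s, sg v s • c (s.erase v) := rfl

theorem D_D (c : Finset V → E) : D k (D k c) = 0 := by
  funext s
  rw [Pi.zero_apply, D_apply]
  have h1 : ∑ v ∈ s, sg v s • (D k c) (s.erase v) =
      ∑ v ∈ s, ∑ w ∈ s.erase v, (sg v s * sg w (s.erase v)) • c ((s.erase v).erase w) := by
    refine Finset.sum_congr rfl fun v _ => ?_
    rw [D_apply, Finset.smul_sum]
    refine Finset.sum_congr rfl fun w _ => ?_
    rw [mul_smul]
  rw [h1, Finset.sum_sigma']
  refine Finset.sum_involution (fun x _ => ⟨x.2, x.1⟩) ?_ ?_ ?_ ?_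
  · rintro ⟨v, w⟩ h
    rw [Finset.mem_sigma, mem_erase] at h
    simp only
    rw [sg_anti h.1 h.2.2 (Ne.symm h.2.1), Finset.erase_right_comm]
    simp
  · rintro ⟨v, w⟩ h _ heq
    rw [Finset.mem_sigma, mem_erase] at h
    have : w = v := congrArg Sigma.fst heq
    exact h.2.1 this
  · rintro ⟨v, w⟩ h
    rw [Finset.mem_sigma, mem_erase] at h ⊢
    exact ⟨h.2.2, Ne.symm h.2.1, h.1⟩
  · rintro ⟨v, w⟩ _
    rfl

theorem D_insert {v : V} {s : Finset V} (hv : v ∉ s) (c : Finset V → E) :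
    D k c (insert v s) = sg v (insert v s) • c s +
      ∑ w ∈ s, sg w (insert v s) • c (insert v (s.erase w)) := by
  rw [D_apply, Finset.sum_insert hv, Finset.erase_insert hv]
  congr 1
  refine Finset.sum_congr rfl fun w hw => ?_
  rw [Finset.erase_insert_of_ne]
  rintro rfl
  exact hv hw

/-- the cochain map induced by a linear map. -/
def cm (ψ : E →ₗ[k] E') : (Finset V → E) →ₗ[k] (Finset V → E') := ψ.compLeft (Finset V)

@[simp] theorem cm_apply (ψ : E →ₗ[k] E') (c : Finset V → E) (s : Finset V) :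
    cm ψ c s = ψ (c s) := rfl

theorem D_cm (ψ : E →ₗ[k] E') (c : Finset V → E) : D k (cm ψ c) = cm ψ (D k c) := by
  funext s
  rw [cm_apply, D_apply, D_apply, map_sum]
  refine Finset.sum_congr rfl fun v _ => ?_
  rw [cm_apply, map_zsmul]

/-- the `p`-cocycles of the complex `⨁ A s / B s`. -/
def Zc (A B : Finset V → Submodule k E) (p : ℕ) : Submodule k (Finset V → E) where
  carrier := {c | (∀ s, s.card = p → c s ∈ A s) ∧ ∀ s, s.card = p + 1 → D k c s ∈ B s}
  add_mem' := by
    rintro c c' ⟨h1, h2⟩ ⟨h1', h2'⟩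
    refine ⟨fun s hs => (A s).add_mem (h1 s hs) (h1' s hs), fun s hs => ?_⟩
    rw [map_add]
    exact (B s).add_mem (h2 s hs) (h2' s hs)
  zero_mem' := ⟨fun s _ => (A s).zero_mem, fun s _ => by rw [map_zero]; exact (B s).zero_mem⟩
  smul_mem' := by
    rintro a c ⟨h1, h2⟩
    refine ⟨fun s hs => (A s).smul_mem a (h1 s hs), fun s hs => ?_⟩
    rw [map_smul]
    exact (B s).smul_mem a (h2 s hs)

theorem mem_Zc {A B : Finset V → Submodule k E} {p : ℕ} {c : Finset V → E} :
    c ∈ Zc A B p ↔ (∀ s, s.card = p → c s ∈ A s) ∧ ∀ s, s.card = p + 1 → D k c s ∈ B s :=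
  Iff.rfl

/-- the `p`-coboundaries of the complex `⨁ A s / B s`. -/
def Bc (A B : Finset V → Submodule k E) (p : ℕ) : Submodule k (Finset V → E) where
  carrier := {c | ∃ b : Finset V → E, (∀ s, s.card + 1 = p → b s ∈ A s) ∧
    ∀ s, s.card = p → c s - D k b s ∈ B s}
  add_mem' := by
    rintro c c' ⟨b, h1, h2⟩ ⟨b', h1', h2'⟩
    refine ⟨b + b', fun s hs => (A s).add_mem (h1 s hs) (h1' s hs), fun s hs => ?_⟩
    have := (B s).add_mem (h2 s hs) (h2' s hs)
    rw [map_add]
    convert this using 1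
    simp only [Pi.add_apply]
    abel
  zero_mem' := ⟨0, fun s _ => (A s).zero_mem, fun s _ => by
    rw [map_zero]
    simp only [Pi.zero_apply, sub_zero]
    exact (B s).zero_mem⟩
  smul_mem' := by
    rintro a c ⟨b, h1, h2⟩
    refine ⟨a • b, fun s hs => (A s).smul_mem a (h1 s hs), fun s hs => ?_⟩
    have := (B s).smul_mem a (h2 s hs)
    rw [map_smul]
    convert this using 1
    simp only [Pi.smul_apply, smul_sub]

theorem mem_Bc {A B : Finset V → Submodule k E} {p : ℕ} {c : Finset V → E} :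
    c ∈ Bc A B p ↔ ∃ b : Finset V → E, (∀ s, s.card + 1 = p → b s ∈ A s) ∧
      ∀ s, s.card = p → c s - D k b s ∈ B s := Iff.rfl

/-- the relation `H^p(A/B)` is zero (`b = False`), resp. finite dimensional (`b = True`). -/
def HR (b : Prop) (A B : Finset V → Submodule k E) (p : ℕ) : Prop :=
  SR b (Zc A B p) (Bc A B p)

variable {b : Prop} {A A' B : Finset V → Submodule k E} {p : ℕ}

theorem D_mem_Bc {c : Finset V → E} (h : ∀ s, s.card + 1 = p → c s ∈ A s) :
    D k c ∈ Bc A B p := by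
  refine ⟨c, h, fun s _ => ?_⟩
  rw [sub_self]
  exact (B s).zero_mem

theorem mem_Bc_of_mem {c : Finset V → E} (h : ∀ s, s.card = p → c s ∈ B s) :
    c ∈ Bc A B p := by
  refine ⟨0, fun s _ => (A s).zero_mem, fun s hs => ?_⟩
  rw [map_zero]
  simpa using h s hs

theorem Bc_mono (hA : ∀ s, A s ≤ A' s) {B' : Finset V → Submodule k E} (hB : ∀ s, B s ≤ B' s) :
    Bc A B p ≤ Bc A' B' p := by
  rintro c ⟨b, h1, h2⟩
  exact ⟨b, fun s hs => hA s (h1 s hs), fun s hs => hB s (h2 s hs)⟩

theorem Zc_mono (hA : ∀ s, A s ≤ A' s) {B' : Finset V → Submodule k E} (hB : ∀ s, B s ≤ B' s) :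
    Zc A B p ≤ Zc A' B' p := by
  rintro c ⟨h1, h2⟩
  exact ⟨fun s hs => hA s (h1 s hs), fun s hs => hB s (h2 s hs)⟩

/-- exactness at `H^p(A/B)`. -/
theorem HR.mid (hA : ∀ s, A' s ≤ A s) (hB : ∀ s, B s ≤ A' s)
    (h1 : HR b A' B p) (h2 : HR b A A' p) : HR b A B p := by
  have e1 : SR b (Zc A B p) (Bc A A' p) := SR.mono h2 (Zc_mono (fun _ => le_rfl) hB) le_rfl
  have e2 := e1.inf
  refine e2.trans ?_
  have e3 : Zc A B p ⊓ Bc A A' p ≤ Zc A' B p ⊔ Bc A B p := by
    rintro c ⟨hc, b', hb1, hb2⟩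
    rw [Submodule.mem_sup]
    refine ⟨c - D k b', ⟨fun s hs => hb2 s hs, fun s hs => ?_⟩, D k b', D_mem_Bc hb1,
      sub_add_cancel _ _⟩
    rw [map_sub, D_D, sub_zero]
    exact hc.2 s hs
  have e4 := SR.sup h1 (Bc A B p)
  exact SR.mono e4 e3 (sup_le (Bc_mono hA fun _ => le_rfl) le_rfl)

/-- exactness at `H^p(A/A')`. -/
theorem HR.quot (hA : ∀ s, A' s ≤ A s) (hB : ∀ s, B s ≤ A' s)
    (h1 : HR b A B p) (h2 : HR b A' B (p + 1)) : HR b A A' p := by
  have e1 : SR b ((Zc A A' p).map (D k)) (Bc A' B (p + 1)) := by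
    refine SR.mono h2 ?_ le_rfl
    rintro _ ⟨c, hc, rfl⟩
    refine ⟨fun s hs => hc.2 s hs, fun s _ => ?_⟩
    rw [D_D]
    exact (B s).zero_mem
  refine e1.comap.trans ?_
  have e3 : Zc A A' p ⊓ (Bc A' B (p + 1)).comap (D k) ≤ Zc A B p ⊔ Bc A A' p := by
    rintro c ⟨hc, b', hb1, hb2⟩
    rw [Submodule.mem_sup]
    refine ⟨c - b', ⟨fun s hs => ?_, fun s hs => ?_⟩, b', mem_Bc_of_mem fun s hs => ?_,
      sub_add_cancel _ _⟩
    · exact (A s).sub_mem (hc.1 s hs) (hA s (hb1 s (by rw [hs])))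
    · rw [map_sub]
      exact hb2 s hs
    · exact hb1 s (by rw [hs])
  have e4 := SR.sup h1 (Bc A A' p)
  exact SR.mono e4 e3 (sup_le (Bc_mono (fun _ => le_rfl) hB) le_rfl)

/-- exactness at `H^{p+1}(A'/B)`. -/
theorem HR.sub (hA : ∀ s, A' s ≤ A s) (hB : ∀ s, B s ≤ A' s)
    (h1 : HR b A A' p) (h2 : HR b A B (p + 1)) : HR b A' B (p + 1) := by
  have e1 : SR b (Zc A' B (p + 1)) (Bc A B (p + 1)) :=
    SR.mono h2 (Zc_mono hA fun _ => le_rfl) le_rfl
  refine e1.inf.trans ?_
  have e3 : Zc A' B (p + 1) ⊓ Bc A B (p + 1) ≤ (Zc A A' p).map (D k) ⊔ Bc A' B (p + 1) := by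
    rintro c ⟨hc, b', hb1, hb2⟩
    rw [Submodule.mem_sup]
    refine ⟨D k b', ⟨b', ⟨fun s hs => hb1 s (by rw [hs]), fun s hs => ?_⟩, rfl⟩,
      c - D k b', mem_Bc_of_mem fun s hs => hb2 s hs, add_sub_cancel _ _⟩
    have h3 := (A' s).sub_mem (hc.1 s hs) (hB s (hb2 s hs))
    rwa [sub_sub_cancel] at h3
  have e4 := (SR.map h1 (D k)).sup (Bc A' B (p + 1))
  refine SR.mono e4 e3 (sup_le ?_ le_rfl)
  rintro _ ⟨c, ⟨b', hb1, hb2⟩, rfl⟩
  have h3 : D k c = D k (c - D k b') := by rw [map_sub, D_D, sub_zero]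
  rw [h3]
  exact D_mem_Bc fun s hs => hb2 s (by omega)

/-- invariance under isomorphisms of families (of two, possibly different, ambient spaces). -/
theorem HR_iso {A B : Finset V → Submodule k E} {A' B' : Finset V → Submodule k E'}
    (ψ : E →ₗ[k] E') (h1 : ∀ s, ∀ x ∈ A s, ψ x ∈ A' s) (h2 : ∀ s, ∀ x ∈ B s, ψ x ∈ B' s)
    (h3 : ∀ s, ∀ y ∈ A' s, ∃ x ∈ A s, y - ψ x ∈ B' s)
    (h4 : ∀ s, ∀ x ∈ A s, ψ x ∈ B' s → x ∈ B s)
    (hA : ∀ s, ∀ v ∈ s, A (s.erase v) ≤ A s) (hB' : ∀ s, ∀ v ∈ s, B' (s.erase v) ≤ B' s) :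
    HR b A B p ↔ HR b A' B' p := by
  classical
  have hDA : ∀ c : Finset V → E, (∀ s, s.card = p → c s ∈ A s) →
      ∀ s, s.card = p + 1 → D k c s ∈ A s := by
    intro c hc s hs
    rw [D_apply]
    refine Submodule.sum_mem _ fun v hv => ?_
    exact zsmul_mem (hA s v hv (hc _ (by rw [Finset.card_erase_of_mem hv, hs]; rfl))) _
  have hDB' : ∀ q, ∀ c : Finset V → E', (∀ s, s.card = q → c s ∈ B' s) →
      ∀ s, s.card = q + 1 → D k c s ∈ B' s := by
    intro q c hc s hs
    rw [D_apply]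
    refine Submodule.sum_mem _ fun v hv => ?_
    exact zsmul_mem (hB' s v hv (hc _ (by rw [Finset.card_erase_of_mem hv, hs]; rfl))) _
  have hBmap : (Bc A B p).map (cm ψ) ≤ Bc A' B' p := by
    rintro _ ⟨c, ⟨b', hb1, hb2⟩, rfl⟩
    refine ⟨cm ψ b', fun s hs => h1 s _ (hb1 s hs), fun s hs => ?_⟩
    rw [D_cm, cm_apply, cm_apply, ← map_sub]
    exact h2 s _ (hb2 s hs)
  constructor
  · intro h
    have e1 : SR b ((Zc A B p).map (cm ψ) ⊔ Bc A' B' p) (Bc A' B' p) :=
      SR.mono ((SR.map h (cm ψ)).sup (Bc A' B' p)) le_rfl (sup_le hBmap le_rfl)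
    refine SR.mono e1 ?_ le_rfl
    rintro c ⟨hc1, hc2⟩
    choose x hx hx' using fun s => fun (hs : s.card = p) => h3 s (c s) (hc1 s hs)
    set c' : Finset V → E := fun s => if hs : s.card = p then x s hs else 0 with hc'
    have h5 : ∀ s, s.card = p → c' s ∈ A s := by
      intro s hs
      simp only [hc', dif_pos hs]
      exact hx s hs
    have h6 : ∀ s, s.card = p → (c - cm ψ c') s ∈ B' s := by
      intro s hs
      simp only [Pi.sub_apply, cm_apply, hc', dif_pos hs]
      exact hx' s hs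
    rw [Submodule.mem_sup]
    refine ⟨cm ψ c', ⟨c', ⟨h5, fun s hs => ?_⟩, rfl⟩, c - cm ψ c', mem_Bc_of_mem h6,
      add_sub_cancel _ _⟩
    refine h4 s _ (hDA c' h5 s hs) ?_
    have h7 := hDB' p _ h6 s hs
    rw [map_sub, D_cm] at h7
    have h8 := (B' s).sub_mem (hc2 s hs) h7
    simpa using h8
  · intro h
    have e1 : SR b ((Zc A B p).map (cm ψ)) (Bc A' B' p) := by
      refine SR.mono h ?_ le_rfl
      rintro _ ⟨c, ⟨hc1, hc2⟩, rfl⟩
      refine ⟨fun s hs => h1 s _ (hc1 s hs), fun s hs => ?_⟩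
      rw [D_cm]
      exact h2 s _ (hc2 s hs)
    refine SR.mono e1.comap le_rfl ?_
    rintro c ⟨⟨hc1, hc2⟩, b', hb1, hb2⟩
    choose x hx hx' using fun s => fun (hs : s.card + 1 = p) => h3 s (b' s) (hb1 s hs)
    set b'' : Finset V → E := fun s => if hs : s.card + 1 = p then x s hs else 0 with hb''
    have h5 : ∀ s, s.card + 1 = p → b'' s ∈ A s := by
      intro s hs
      simp only [hb'', dif_pos hs]
      exact hx s hs
    refine ⟨b'', h5, fun s hs => ?_⟩
    have h6 : ∀ s, s.card + 1 = p → (b' - cm ψ b'') s ∈ B' s := by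
      intro s hs
      simp only [Pi.sub_apply, cm_apply, hb'', dif_pos hs]
      exact hx' s hs
    have hDbA : D k b'' s ∈ A s := by
      rw [D_apply]
      refine Submodule.sum_mem _ fun v hv => ?_
      refine zsmul_mem (hA s v hv (h5 _ ?_)) _
      rw [Finset.card_erase_add_one hv, hs]
    have hDbB : D k (b' - cm ψ b'') s ∈ B' s := by
      rw [D_apply]
      refine Submodule.sum_mem _ fun v hv => ?_
      refine zsmul_mem (hB' s v hv (h6 _ ?_)) _
      rw [Finset.card_erase_add_one hv, hs]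
    refine h4 s _ ((A s).sub_mem (hc1 s hs) hDbA) ?_
    rw [map_sub]
    rw [map_sub, D_cm] at hDbB
    have h8 := (B' s).add_mem (hb2 s hs) hDbB
    simpa using h8

/-- the families only matter through their values. -/
theorem HR_congr {A B A' B' : Finset V → Submodule k E} (hA : ∀ s, A s = A' s)
    (hB : ∀ s, B s = B' s) : HR b A B p ↔ HR b A' B' p := by
  rw [funext hA, funext hB]

theorem HR_of_eq {A B : Finset V → Submodule k E} (h : ∀ s, s.card = p → A s ≤ B s) :
    HR b A B p :=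
  SR.of_le fun _ hc => mem_Bc_of_mem fun s hs => h s hs (hc.1 s hs)

theorem HR_false_iff {A B : Finset V → Submodule k E} :
    HR False A B p ↔ ∀ c ∈ Zc A B p, c ∈ Bc A B p := SR_false

theorem HR.of_false {A B : Finset V → Submodule k E} (h : HR False A B p) : HR b A B p :=
  SR.of_le (SR_false.1 h)

/-- acyclicity criterion in one direction `v`: if `A t / B t → A (t ∪ v) / B (t ∪ v)` is
bijective for all `t ∌ v`, the complex is acyclic. -/
theorem HR_of_bij {A B : Finset V → Submodule k E} (v : V)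
    (hA : ∀ s, ∀ w ∈ s, A (s.erase w) ≤ A s) (hB : ∀ s, ∀ w ∈ s, B (s.erase w) ≤ B s)
    (hsurj : ∀ t, v ∉ t → ∀ x ∈ A (insert v t), ∃ y ∈ A t, x - y ∈ B (insert v t))
    (hinj : ∀ t, v ∉ t → ∀ x ∈ A t, x ∈ B (insert v t) → x ∈ B t) : HR b A B p := by
  classical
  refine HR.of_false (HR_false_iff.2 ?_)
  rintro c ⟨hc1, hc2⟩
  -- step 1: choose `b` on the sets not containing `v`
  have hex : ∀ t : Finset V, ∃ y : E, t.card + 1 = p → v ∉ t →
      y ∈ A t ∧ c (insert v t) - sg v (insert v t) • y ∈ B (insert v t) := by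
    intro t
    by_cases h : t.card + 1 = p ∧ v ∉ t
    · obtain ⟨ht, hv⟩ := h
      have h1 : c (insert v t) ∈ A (insert v t) := hc1 _ (by rw [Finset.card_insert_of_notMem hv, ht])
      obtain ⟨y, hy, hy'⟩ := hsurj t hv _ h1
      refine ⟨sg v (insert v t) • y, fun _ _ => ⟨zsmul_mem hy _, ?_⟩⟩
      rwa [← mul_smul, sg_mul_self, one_smul]
    · exact ⟨0, fun h1 h2 => absurd ⟨h1, h2⟩ h⟩
  choose y hy using hex
  set b' : Finset V → E := fun t => if v ∈ t then 0 else y t with hb'
  have hb'A : ∀ t, t.card + 1 = p → b' t ∈ A t := by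
    intro t ht
    simp only [hb']
    split_ifs with hv
    · exact (A t).zero_mem
    · exact (hy t ht hv).1
  refine ⟨b', hb'A, ?_⟩
  set c1 : Finset V → E := c - D k b' with hc1def
  -- on sets containing `v`
  have hin : ∀ t, v ∉ t → (insert v t).card = p → c1 (insert v t) ∈ B (insert v t) := by
    intro t hv ht
    rw [Finset.card_insert_of_notMem hv] at ht
    have h1 : D k b' (insert v t) = sg v (insert v t) • y t := by
      rw [D_insert hv]
      have h2 : ∑ w ∈ t, sg w (insert v t) • b' (insert v (t.erase w)) = 0 := by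
        refine Finset.sum_eq_zero fun w _ => ?_
        simp [hb']
      rw [h2, add_zero]
      simp [hb', hv]
    simp only [hc1def, Pi.sub_apply, h1]
    exact (hy t ht hv).2
  intro s hs
  by_cases hv : v ∈ s
  · have := hin (s.erase v) (Finset.notMem_erase v s) (by rw [Finset.insert_erase hv, hs])
    rwa [Finset.insert_erase hv] at this
  · -- use the cocycle condition at `insert v s`
    have hb's : D k b' s ∈ A s := by
      rw [D_apply]
      refine Submodule.sum_mem _ fun w hw => zsmul_mem (hA s w hw (hb'A _ ?_)) _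
      rw [Finset.card_erase_add_one hw, hs]
    have hcard : (insert v s).card = p + 1 := by rw [Finset.card_insert_of_notMem hv, hs]
    have h1 : D k c1 (insert v s) ∈ B (insert v s) := by
      rw [hc1def, map_sub, D_D, sub_zero]
      exact hc2 _ hcard
    rw [D_insert hv] at h1
    have h2 : ∑ w ∈ s, sg w (insert v s) • c1 (insert v (s.erase w)) ∈ B (insert v s) := by
      refine Submodule.sum_mem _ fun w hw => zsmul_mem ?_ _
      have hvw : v ∉ s.erase w := fun h => hv (Finset.mem_of_mem_erase h)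
      have h3 := hin (s.erase w) hvw (by
        rw [Finset.card_insert_of_notMem hvw, Finset.card_erase_add_one hw, hs])
      have h4 : insert v (s.erase w) = (insert v s).erase w := by
        rw [Finset.erase_insert_of_ne]
        rintro rfl
        exact hv hw
      rw [h4] at h3 ⊢
      exact hB (insert v s) w (Finset.mem_insert_of_mem hw) h3
    have h5 : sg v (insert v s) • c1 s ∈ B (insert v s) := by
      have := (B (insert v s)).sub_mem h1 h2
      rwa [add_sub_cancel_right] at this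
    have h6 : c1 s ∈ B (insert v s) := by
      have := zsmul_mem h5 (sg v (insert v s))
      rwa [← mul_smul, sg_mul_self, one_smul] at this
    refine hinj s hv _ ?_ h6
    exact (A s).sub_mem (hc1 s hs) hb's

end D

end Pool.Agent.Helper19.Cech
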