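import Pool.Agent.Helper13.Setup
import Pool.Agent.Helper19.LC.BasisE

/-!
# Handoff E for MP_430249_ag: the concrete instance of the adapted basis
-/

namespace Pool.Agent.Helper13

open MvPolynomial
open Pool.Agent.Helper19.BasisE

/-- leading exponents -/
noncomputable def μE : Fin 5 → Ex
  | 0 => Finsupp.single 9 1 + Finsupp.single 7 1
  | 1 => Finsupp.single 6 1 + Finsupp.single 11 1
  | 2 => Finsupp.single 15 1 + Finsupp.single 13 1
  | 3 => Finsupp.single 12 1 + Finsupp.single 17 1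
  | 4 => Finsupp.single 0 2 + Finsupp.single 10 2 + Finsupp.single 16 2

/-- weight -/
def wE : Ex →+ ℕ where
  toFun M := 2 * M 9 + M 10 + 3 * M 11 + 2 * M 15 + M 16 + 3 * M 17
  map_zero' := by simp
  map_add' M N := by simp only [Finsupp.add_apply]; ring

/-- an additive functional from a list of variables -/
def thL (l : List (Fin 18)) : Ex →+ ℤ where
  toFun M := (l.map fun v => (M v : ℤ)).sum
  map_zero' := by simp
  map_add' M N := by
    induction l with
    | nil => simp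
    | cons a l ih =>
      simp only [List.map_cons, List.sum_cons, Finsupp.add_apply] at ih ⊢
      rw [ih]
      push_cast
      ring

/-- the threshold functionals -/
def TE : Set (Ex →+ ℤ) :=
  {thL [0, 1, 2, 3, 4, 5], thL [6, 7, 8], thL [6, 9], thL [7, 10], thL [12, 13, 14],
    thL [12, 15], thL [13, 16]}

/-- all exponents of `h` are below `μ` -/
def LowP {k : Type*} [Field k] (μ : Ex) (h : MvPolynomial (Fin 18) k) : Prop :=
  ∀ N ∈ h.support, wE N < wE μ ∧ ∀ θ ∈ TE, θ μ ≤ θ N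

variable {k : Type*} [Field k]

theorem LowP.add {μ : Ex} {h h' : MvPolynomial (Fin 18) k} (a : LowP μ h) (b : LowP μ h') :
    LowP μ (h + h') := by
  classical
  intro N hN
  rcases Finset.mem_union.1 (support_add hN) with h | h
  · exact a N h
  · exact b N h

theorem LowP.smul {μ : Ex} {h : MvPolynomial (Fin 18) k} (a : LowP μ h) (c : k) :
    LowP μ (c • h) := fun N hN => a N (support_smul hN)

theorem LowP.mono {μ N : Ex} (h : wE N < wE μ ∧ ∀ θ ∈ TE, θ μ ≤ θ N) :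
    LowP μ (monomial N (1 : k)) := by
  classical
  intro M hM
  rw [mem_support_iff, coeff_monomial] at hM
  have : N = M := by
    by_contra h0
    exact hM (if_neg h0)
  rw [← this]
  exact h

theorem lead_of_lowP {μ : Ex} {g h : MvPolynomial (Fin 18) k} (hg : g = monomial μ 1 + h)
    (hh : LowP μ h) : coeff μ g = 1 ∧
      ∀ N ∈ g.support, N ≠ μ → wE N < wE μ ∧ ∀ θ ∈ TE, θ μ ≤ θ N := by
  classical
  have h0 : coeff μ h = 0 := by
    by_contra hc
    exact lt_irrefl _ (hh μ (mem_support_iff.2 hc)).1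
  constructor
  · rw [hg, coeff_add, h0, coeff_monomial, if_pos rfl, add_zero]
  · intro N hN hne
    apply hh N
    rw [hg] at hN
    rcases Finset.mem_union.1 (support_add hN) with h1 | h1
    · rw [mem_support_iff, coeff_monomial] at h1
      exact absurd (by by_contra h2; exact h1 (if_neg (Ne.symm h2))) hne
    · exact h1

/-- `x0^a x1^b Y0^c Y1^d Z0^e Z1^f` -/
theorem mon6 (a b c d e f : ℕ) : (X 0 ^ a * X 1 ^ b * X 7 ^ c * X 10 ^ d * X 13 ^ e * X 16 ^ f :
    MvPolynomial (Fin 18) k) = monomial (Finsupp.single 0 a + Finsupp.single 1 b +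
      Finsupp.single 7 c + Finsupp.single 10 d + Finsupp.single 13 e + Finsupp.single 16 f) 1 := by
  simp only [X_pow_eq_monomial, monomial_mul, mul_one]

theorem gg4_eq : gg k 4 = monomial (μE 4) 1 +
    (monomial (Finsupp.single 0 1 + Finsupp.single 1 1 +
      Finsupp.single 7 2 + Finsupp.single 10 0 + Finsupp.single 13 2 + Finsupp.single 16 0) 1 +
    monomial (Finsupp.single 0 2 + Finsupp.single 1 0 +
      Finsupp.single 7 1 + Finsupp.single 10 1 + Finsupp.single 13 2 + Finsupp.single 16 0) 1 +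
    monomial (Finsupp.single 0 2 + Finsupp.single 1 0 +
      Finsupp.single 7 2 + Finsupp.single 10 0 + Finsupp.single 13 1 + Finsupp.single 16 1) 1 +
    monomial (Finsupp.single 0 0 + Finsupp.single 1 2 +
      Finsupp.single 7 0 + Finsupp.single 10 2 + Finsupp.single 13 2 + Finsupp.single 16 0) 1 +
    monomial (Finsupp.single 0 0 + Finsupp.single 1 2 +
      Finsupp.single 7 2 + Finsupp.single 10 0 + Finsupp.single 13 0 + Finsupp.single 16 2) 1 +
    (2 : k) • monomial (Finsupp.single 0 0 + Finsupp.single 1 2 +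
      Finsupp.single 7 1 + Finsupp.single 10 1 + Finsupp.single 13 1 + Finsupp.single 16 1) 1 +
    (2 : k) • monomial (Finsupp.single 0 1 + Finsupp.single 1 1 +
      Finsupp.single 7 0 + Finsupp.single 10 2 + Finsupp.single 13 1 + Finsupp.single 16 1) 1 +
    (2 : k) • monomial (Finsupp.single 0 1 + Finsupp.single 1 1 +
      Finsupp.single 7 1 + Finsupp.single 10 1 + Finsupp.single 13 0 + Finsupp.single 16 2) 1) := by
  have hμ : monomial (μE 4) (1 : k) = X 0 ^ 2 * X 10 ^ 2 * X 16 ^ 2 := by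
    simp only [μE, X_pow_eq_monomial, monomial_mul, mul_one]
  simp only [← mon6]
  rw [hμ]
  unfold gg ff
  simp only [smul_eq_C_mul, map_ofNat]
  ring

/-- check of the threshold and weight inequalities for explicit exponents -/
theorem low_check {μ N : Ex} (hw : wE N < wE μ)
    (h1 : thL [0, 1, 2, 3, 4, 5] μ ≤ thL [0, 1, 2, 3, 4, 5] N)
    (h2 : thL [6, 7, 8] μ ≤ thL [6, 7, 8] N) (h3 : thL [6, 9] μ ≤ thL [6, 9] N)
    (h4 : thL [7, 10] μ ≤ thL [7, 10] N) (h5 : thL [12, 13, 14] μ ≤ thL [12, 13, 14] N)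
    (h6 : thL [12, 15] μ ≤ thL [12, 15] N) (h7 : thL [13, 16] μ ≤ thL [13, 16] N) :
    wE N < wE μ ∧ ∀ θ ∈ TE, θ μ ≤ θ N := by
  refine ⟨hw, ?_⟩
  intro θ hθ
  simp only [TE, Set.mem_insert_iff, Set.mem_singleton_iff] at hθ
  rcases hθ with rfl | rfl | rfl | rfl | rfl | rfl | rfl <;> assumption

theorem wE_apply (M : Ex) : wE M = 2 * M 9 + M 10 + 3 * M 11 + 2 * M 15 + M 16 + 3 * M 17 := rfl

theorem thL_apply (l : List (Fin 18)) (M : Ex) : thL l M = (l.map fun v => (M v : ℤ)).sum := rfl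

theorem lead_gg (i : Fin 5) : coeff (μE i) (gg k i) = 1 ∧
    ∀ N ∈ (gg k i).support, N ≠ μE i → wE N < wE (μE i) ∧ ∀ θ ∈ TE, θ (μE i) ≤ θ N := by
  have h2 : ∀ (a b : Fin 18), (X a * X b : MvPolynomial (Fin 18) k) =
      monomial (Finsupp.single a 1 + Finsupp.single b 1) 1 := by
    intro a b
    rw [X, X, monomial_mul, mul_one]
  fin_cases i
  · refine lead_of_lowP (h := (-1 : k) • monomial (Finsupp.single 6 1 + Finsupp.single 10 1) 1) ?_ ?_
    · simp only [gg, μE, h2]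
      rw [neg_one_smul, sub_eq_add_neg]
    · refine (LowP.mono (low_check ?_ ?_ ?_ ?_ ?_ ?_ ?_ ?_)).smul _ <;>
        simp [wE_apply, thL_apply, μE, Finsupp.single_apply]
  · refine lead_of_lowP (h := (-1 : k) • monomial (Finsupp.single 9 1 + Finsupp.single 8 1) 1) ?_ ?_
    · simp only [gg, μE, h2]
      rw [neg_one_smul, sub_eq_add_neg]
    · refine (LowP.mono (low_check ?_ ?_ ?_ ?_ ?_ ?_ ?_ ?_)).smul _ <;>
        simp [wE_apply, thL_apply, μE, Finsupp.single_apply]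
  · refine lead_of_lowP (h := (-1 : k) • monomial (Finsupp.single 12 1 + Finsupp.single 16 1) 1) ?_ ?_
    · simp only [gg, μE, h2]
      rw [neg_one_smul, sub_eq_add_neg]
    · refine (LowP.mono (low_check ?_ ?_ ?_ ?_ ?_ ?_ ?_ ?_)).smul _ <;>
        simp [wE_apply, thL_apply, μE, Finsupp.single_apply]
  · refine lead_of_lowP (h := (-1 : k) • monomial (Finsupp.single 15 1 + Finsupp.single 14 1) 1) ?_ ?_
    · simp only [gg, μE, h2]
      rw [neg_one_smul, sub_eq_add_neg]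
    · refine (LowP.mono (low_check ?_ ?_ ?_ ?_ ?_ ?_ ?_ ?_)).smul _ <;>
        simp [wE_apply, thL_apply, μE, Finsupp.single_apply]
  · refine lead_of_lowP gg4_eq ?_
    refine LowP.add (LowP.add (LowP.add (LowP.add (LowP.add (LowP.add (LowP.add ?_ ?_) ?_) ?_) ?_)
      (LowP.smul ?_ _)) (LowP.smul ?_ _)) (LowP.smul ?_ _) <;>
      refine LowP.mono (low_check ?_ ?_ ?_ ?_ ?_ ?_ ?_ ?_) <;>
        simp [wE_apply, thL_apply, μE, Finsupp.single_apply]

/-- the leading data -/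
noncomputable def leadE (k : Type*) [Field k] : Lead k (Fin 18) (Fin 5) where
  μ := μE
  μ_ne := by
    intro i h
    fin_cases i
    · have := DFunLike.congr_fun h 9
      simp [μE] at this
    · have := DFunLike.congr_fun h 6
      simp [μE] at this
    · have := DFunLike.congr_fun h 15
      simp [μE] at this
    · have := DFunLike.congr_fun h 12
      simp [μE] at this
    · have := DFunLike.congr_fun h 0
      simp [μE] at this
  disj := by
    intro i j hij s
    fin_cases i <;> fin_cases j <;> first | exact absurd rfl hij | skip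
    all_goals
      fin_cases s <;> simp [μE]
  g := gg k
  w := wE
  T := TE
  g_lead := fun i => (lead_gg i).1
  g_low := fun i => (lead_gg i).2

/-- one step of the integer decomposition `𝔟_{m+1} = 𝔟_1 𝔟_m` -/
theorem InB_split (m : ℕ) (M : Ex) (h : InB (m + 1) M) :
    ∃ A, InB 1 A ∧ ∃ B, InB m B ∧ M = A + B := by
  obtain ⟨h1, h2, h3, h4, h5, h6, h7⟩ := h
  -- the `x`-part
  obtain ⟨a0, a1, a2, a3, a4, a5, hx⟩ : ∃ a0 a1 a2 a3 a4 a5 : ℕ, a0 ≤ M 0 ∧ a1 ≤ M 1 ∧ a2 ≤ M 2 ∧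
      a3 ≤ M 3 ∧ a4 ≤ M 4 ∧ a5 ≤ M 5 ∧ a0 + a1 + a2 + a3 + a4 + a5 = 3 := by
    refine ⟨min 3 (M 0), min (3 - min 3 (M 0)) (M 1),
      min (3 - min 3 (M 0) - min (3 - min 3 (M 0)) (M 1)) (M 2), ?_⟩
    set b0 := min 3 (M 0)
    set b1 := min (3 - b0) (M 1)
    set b2 := min (3 - b0 - b1) (M 2)
    refine ⟨min (3 - b0 - b1 - b2) (M 3), min (3 - b0 - b1 - b2 - min (3 - b0 - b1 - b2) (M 3)) (M 4),
      3 - b0 - b1 - b2 - min (3 - b0 - b1 - b2) (M 3) -
        min (3 - b0 - b1 - b2 - min (3 - b0 - b1 - b2) (M 3)) (M 4), ?_⟩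
    omega
  -- a block part
  have block : ∀ p1 p2 p3 r1 r2 : ℕ, 6 * (m + 1) ≤ p1 + p2 + p3 → m + 1 ≤ p1 + r1 →
      2 * (m + 1) ≤ p2 + r2 → ∃ a1 a2 a3 c1 c2 : ℕ, a1 ≤ p1 ∧ a2 ≤ p2 ∧ a3 ≤ p3 ∧ c1 ≤ r1 ∧
        c2 ≤ r2 ∧ a1 + a2 + a3 = 6 ∧ 1 ≤ a1 + c1 ∧ a1 + c1 + m ≤ p1 + r1 ∧ 2 ≤ a2 + c2 ∧
        a2 + c2 + 2 * m ≤ p2 + r2 := by
    intro p1 p2 p3 r1 r2 hp hr1 hr2
    -- base choice
    obtain ⟨a1, ha1, ha1', ha1''⟩ : ∃ a1, a1 ≤ 1 ∧ a1 ≤ p1 ∧ (a1 = 1 ∨ (a1 = 0 ∧ p1 = 0)) := by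
      rcases Nat.eq_zero_or_pos p1 with h | h
      · exact ⟨0, by omega, by omega, by omega⟩
      · exact ⟨1, by omega, by omega, by omega⟩
    obtain ⟨a2, ha2, ha2', ha2''⟩ : ∃ a2, a2 ≤ 2 ∧ a2 ≤ p2 ∧ (a2 = 2 ∨ (a2 = p2 ∧ p2 < 2)) := by
      rcases Nat.lt_or_ge p2 2 with h | h
      · exact ⟨p2, by omega, by omega, by omega⟩
      · exact ⟨2, by omega, by omega, by omega⟩
    -- capacities
    obtain ⟨u1, hu1, hu1', hu1''⟩ : ∃ u1, u1 + a1 ≤ p1 ∧ u1 + 1 + m ≤ p1 + r1 ∧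
        p1 ≤ u1 + a1 + (m + 1 - a1 - r1) := by
      rcases Nat.le_total (p1 - a1) (p1 + r1 - m - 1) with h | h
      · exact ⟨p1 - a1, by omega, by omega, by omega⟩
      · exact ⟨p1 + r1 - m - 1, by omega, by omega, by omega⟩
    obtain ⟨u2, hu2, hu2', hu2''⟩ : ∃ u2, u2 + a2 ≤ p2 ∧ u2 + 2 + 2 * m ≤ p2 + r2 ∧
        p2 ≤ u2 + a2 + (2 * m + 2 - a2 - r2) := by
      rcases Nat.le_total (p2 - a2) (p2 + r2 - 2 * m - 2) with h | h
      · exact ⟨p2 - a2, by omega, by omega, by omega⟩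
      · exact ⟨p2 + r2 - 2 * m - 2, by omega, by omega, by omega⟩
    have hcap : 6 ≤ u1 + a1 + (u2 + a2) + p3 := by
      rcases Nat.eq_zero_or_pos m with h0 | h0
      · subst h0
        omega
      · omega
    obtain ⟨d1, hd1, hd1'⟩ : ∃ d1, d1 ≤ u1 ∧ d1 + a1 + a2 ≤ 6 ∧ 6 ≤ d1 + a1 + (u2 + a2) + p3 := by
      rcases Nat.le_total (u1 + a1 + a2) 6 with h | h
      · exact ⟨u1, le_rfl, by omega, by omega⟩
      · exact ⟨6 - a1 - a2, by omega, by omega, by omega⟩
    obtain ⟨d2, hd2, hd2'⟩ : ∃ d2, d2 ≤ u2 ∧ d1 + a1 + (d2 + a2) ≤ 6 ∧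
        6 ≤ d1 + a1 + (d2 + a2) + p3 := by
      rcases Nat.le_total (d1 + a1 + (u2 + a2)) 6 with h | h
      · exact ⟨u2, le_rfl, by omega, by omega⟩
      · exact ⟨6 - d1 - a1 - a2, by omega, by omega, by omega⟩
    exact ⟨a1 + d1, a2 + d2, 6 - (a1 + d1) - (a2 + d2), 1 - a1, 2 - a2, by omega, by omega,
      by omega, by omega, by omega, by omega, by omega, by omega, by omega, by omega⟩
  obtain ⟨b1, b2, b3, c1, c2, hy⟩ := block (M 6) (M 7) (M 8) (M 9) (M 10) h2 h3 h4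
  obtain ⟨e1, e2, e3, f1, f2, hz⟩ := block (M 12) (M 13) (M 14) (M 15) (M 16) h5 h6 h7
  set A : Ex := Finsupp.equivFunOnFinite.symm
    ![a0, a1, a2, a3, a4, a5, b1, b2, b3, c1, c2, 0, e1, e2, e3, f1, f2, 0] with hA
  have hAv : ∀ v, A v = ![a0, a1, a2, a3, a4, a5, b1, b2, b3, c1, c2, 0, e1, e2, e3, f1, f2, 0] v :=
    fun v => rfl
  have e0' : A 0 = a0 := rfl
  have e1' : A 1 = a1 := rfl
  have e2' : A 2 = a2 := rfl
  have e3' : A 3 = a3 := rfl
  have e4' : A 4 = a4 := rfl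
  have e5' : A 5 = a5 := rfl
  have e6' : A 6 = b1 := rfl
  have e7' : A 7 = b2 := rfl
  have e8' : A 8 = b3 := rfl
  have e9' : A 9 = c1 := rfl
  have e10' : A 10 = c2 := rfl
  have e11' : A 11 = 0 := rfl
  have e12' : A 12 = e1 := rfl
  have e13' : A 13 = e2 := rfl
  have e14' : A 14 = e3 := rfl
  have e15' : A 15 = f1 := rfl
  have e16' : A 16 = f2 := rfl
  have e17' : A 17 = 0 := rfl
  have hle : A ≤ M := by
    intro v
    fin_cases v <;> simp only [Fin.zero_eta, Fin.mk_one, Fin.reduceFinMk] <;> omega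
  refine ⟨A, ?_, M - A, ?_, (add_tsub_cancel_of_le hle).symm⟩
  · unfold InB
    omega
  · unfold InB
    simp only [Finsupp.tsub_apply]
    omega

theorem thr_low (m : ℕ) : (leadE k).LowClosed {M | InB m M} := by
  rintro M hM N ⟨_, hN⟩
  have key : ∀ l : List (Fin 18), thL l ∈ TE → thL l M ≤ thL l N := fun l hl => hN _ hl
  have k1 := key [0, 1, 2, 3, 4, 5] (by simp [TE])
  have k2 := key [6, 7, 8] (by simp [TE])
  have k3 := key [6, 9] (by simp [TE])
  have k4 := key [7, 10] (by simp [TE])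
  have k5 := key [12, 13, 14] (by simp [TE])
  have k6 := key [12, 15] (by simp [TE])
  have k7 := key [13, 16] (by simp [TE])
  simp only [thL_apply, List.map_cons, List.map_nil, List.sum_cons, List.sum_nil, add_zero] at k1 k2 k3 k4 k5 k6 k7
  obtain ⟨h1, h2, h3, h4, h5, h6, h7⟩ := hM
  exact ⟨by omega, by omega, by omega, by omega, by omega, by omega, by omega⟩

/-- the leading data with the monomial ideals `𝔟_m` -/
noncomputable def thrE (k : Type*) [Field k] : Thr k (Fin 18) (Fin 5) where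
  toLead := leadE k
  S := fun m => {M | InB m M}
  S_zero := by
    ext M
    simp [InB]
  S_anti := by
    intro m M hM
    obtain ⟨h1, h2, h3, h4, h5, h6, h7⟩ := hM
    exact ⟨by omega, by omega, by omega, by omega, by omega, by omega, by omega⟩
  S_up := by
    intro m M hM N
    obtain ⟨h1, h2, h3, h4, h5, h6, h7⟩ := hM
    refine ⟨?_, ?_, ?_, ?_, ?_, ?_, ?_⟩ <;> simp only [Finsupp.add_apply] <;> omega
  S_low := thr_low
  S_add := by
    intro m M hM N hN
    obtain ⟨h1, h2, h3, h4, h5, h6, h7⟩ := hM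
    obtain ⟨h1', h2', h3', h4', h5', h6', h7'⟩ := hN
    refine ⟨?_, ?_, ?_, ?_, ?_, ?_, ?_⟩ <;> simp only [Finsupp.add_apply] <;> omega
  S_split := by
    intro m M hM
    obtain ⟨A, hA, B, hB, h⟩ := InB_split m M hM
    exact ⟨A, hA, B, hB, h⟩
  S_mu := by
    intro m i M hM
    obtain ⟨h1, h2, h3, h4, h5, h6, h7⟩ := hM
    fin_cases i
    all_goals
      simp [leadE, μE] at h1 h2 h3 h4 h5 h6 h7
      exact ⟨by omega, by omega, by omega, by omega, by omega, by omega, by omega⟩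

end Pool.Agent.Helper13
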